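import Pool.Agent.Helper55_MNW.Tree
import Pool.Agent.Helper95_MNW.TRW

set_option autoImplicit false

/-!
# From the inequality for labelled trees to laminar families (copy of `Helper95_MNW/TRW.lean`)
-/

namespace Pool.Agent.MNW.H55

open Pool.Agent.MNT
open Pool.Agent.MNT.H38
open scoped Classical

theorem ti (g m : ℕ) (A : ℝ) (hg : 2 ≤ g) (hm : 9 ≤ m) (hm' : m ≤ 13) (hA0 : 0 ≤ A)
    (hA1 : A ≤ ((g : ℝ) + 1) ^ 2) (M : ℕ → ℝ → ℝ) (hC : Cert g m A M) : TI g m A := by
  have lpa := MNT.H24.lpa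
  have lks := MNT.H62.lks
  have lgu := MNT.H18.lgu MNT.H62.lks
  have lft := MNT.H46.lft
  have enl := MNT.H82.enl
  have hg2 : (2 : ℝ) ≤ (g : ℝ) := by exact_mod_cast hg
  have hm9 : (9 : ℝ) ≤ (m : ℝ) := by exact_mod_cast hm
  have hm13 : (m : ℝ) ≤ 13 := by exact_mod_cast hm'
  have hgam : 1 / 30 ≤ gm g m A := by
    unfold gm
    rw [div_le_div_iff₀ (by norm_num) (by linarith)]
    nlinarith
  refine ⟨hg, hm, hm', hA0, hA1, ?_⟩
  intro P _ _ R hRc hP Λ
  have hR : R.Nonempty := Finset.card_pos.1 (by omega)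
  let _ := topI Λ R hR
  obtain ⟨T, hT⟩ := exT lpa Λ R hR
  have hLab := H95.exLab lks lgu g m Λ R hRc hP hR T hT
  have hl : ∀ c : VV Λ R, c ≠ ⊤ → 0 < Λ.l c.1 := fun c hc =>
    Λ.pos c.1 c.2.1 (fun h => hc (Subtype.ext h))
  obtain ⟨D, hD0, hDG, hD1, hmain⟩ := tree (by omega) hA0 hC hl hLab
  obtain ⟨foot, hf1, hf2⟩ := lft P Λ R hR
  let ft : P → VV Λ R := fun x => ⟨foot x, (hf1 x).1, (hf1 x).2.1⟩
  let μ : P → Finset P → ℝ := fun x c =>
    if h : c ∈ Λ.V ∧ (c ∩ R).Nonempty then D (ft x) ⟨c, h⟩ else 0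
  have hμ : ∀ x (a : VV Λ R), μ x a.1 = D (ft x) a := fun x a => dif_pos a.2
  have hμ0 : ∀ x c, μ x c ≠ 0 → (c ∩ R).Nonempty := by
    intro x c h
    by_contra h'
    exact h (dif_neg (fun h2 => h' h2.2))
  have hμ1 : ∀ x, ∑ c ∈ Λ.V, μ x c = 1 := by
    intro x
    rw [sumV Λ R _ (fun c _ h => hμ0 x c h)]
    simp only [hμ]
    exact hD1 (ft x)
  refine ⟨μ, ?_, ?_⟩
  · intro x _
    refine ⟨?_, ?_, hμ1 x⟩
    · intro c hc
      by_cases h : (c ∩ R).Nonempty
      · rw [hμ x ⟨c, hc, h⟩]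
        exact hD0 _ _
      · by_contra h'
        have h2 : μ x c ≠ 0 := fun h0 => h' (by rw [h0])
        exact h (hμ0 x c h2)
    · intro c hc h
      have h1 := hμ0 x c h
      rw [hμ x ⟨c, hc, h1⟩] at h
      exact hDG _ _ h
  · -- the main computation
    let M : P → Finset P → ℝ := fun x e => ∑ c ∈ Λ.V with c ⊆ e, μ x c
    let TT : Finset P → ℝ := fun e => ∑ x ∈ Rᶜ, (M x e ^ 2 - 2 * (if x ∈ e then 1 else 0) * M x e)
    let X : VV Λ R → VV Λ R → ℝ := fun u j => D u j - dl u j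
    have hEn : ∑ x ∈ Rᶜ, Λ.En (μ x) x = ∑ e ∈ Λ.V, Λ.l e * TT e := by
      have h1 : ∀ x ∈ Rᶜ, Λ.En (μ x) x = ∑ e ∈ Λ.V, Λ.l e *
          (M x e ^ 2 - 2 * (if x ∈ e then 1 else 0) * M x e) := fun x _ => enl P Λ (μ x) x (hμ1 x)
      rw [Finset.sum_congr rfl h1, Finset.sum_comm]
      apply Finset.sum_congr rfl
      intro e _
      rw [Finset.mul_sum]
    have hRcc : (Rᶜ).card = m := by
      rw [Finset.card_compl, hP, hRc]
      omega
    have hTuniv : TT Finset.univ = -(m : ℝ) := by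
      have h1 : ∀ x ∈ Rᶜ, (M x Finset.univ ^ 2 -
          2 * (if x ∈ (Finset.univ : Finset P) then 1 else 0) * M x Finset.univ) = (-1 : ℝ) := by
        intro x _
        have h2 : M x Finset.univ = 1 := by
          show ∑ c ∈ Λ.V with c ⊆ Finset.univ, μ x c = 1
          rw [Finset.filter_true_of_mem (fun c _ => Finset.subset_univ c)]
          exact hμ1 x
        rw [h2, if_pos (Finset.mem_univ x)]
        norm_num
      show ∑ x ∈ Rᶜ, _ = _
      rw [Finset.sum_congr rfl h1, Finset.sum_const, hRcc, nsmul_eq_mul]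
      push_cast
      ring
    have hTno : ∀ e ∈ Λ.V, ¬ (e ∩ R).Nonempty → TT e = 0 := by
      intro e _ hno
      apply Finset.sum_eq_zero
      intro x _
      have h2 : M x e = 0 := by
        apply Finset.sum_eq_zero
        intro c hc
        rw [Finset.mem_filter] at hc
        by_contra h
        obtain ⟨p, hp⟩ := hμ0 x c h
        rw [Finset.mem_inter] at hp
        exact hno ⟨p, Finset.mem_inter.2 ⟨hc.2 hp.1, hp.2⟩⟩
      rw [h2]
      ring
    have hfoot : ∀ x (e : VV Λ R), x ∈ e.1 ↔ ft x ≤ e := by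
      intro x e
      constructor
      · intro h
        exact (hf1 x).2.2.2 e.1 e.2.1 e.2.2 h
      · intro h
        exact h (hf1 x).2.2.1
    have hMM : ∀ x (e : VV Λ R), MM (X (ft x)) e = M x e.1 - (if x ∈ e.1 then 1 else 0) := by
      intro x e
      have h0 : MM (X (ft x)) e = ∑ j, ((if j ≤ e then D (ft x) j else 0) -
          (if j ≤ e then dl (ft x) j else 0)) := by
        rw [MM, Finset.sum_filter]
        apply Finset.sum_congr rfl
        intro j _
        by_cases h : j ≤ e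
        · simp only [h, if_true]; rfl
        · simp only [h, if_false, sub_zero]
      rw [h0, Finset.sum_sub_distrib]
      have h1 : ∑ j, (if j ≤ e then D (ft x) j else 0) = M x e.1 := by
        show _ = ∑ c ∈ Λ.V with c ⊆ e.1, μ x c
        rw [Finset.sum_filter, sumV Λ R]
        · apply Finset.sum_congr rfl
          intro a _
          by_cases h : a ≤ e
          · rw [if_pos h, if_pos (show a.1 ⊆ e.1 from h), hμ]
          · rw [if_neg h, if_neg (show ¬ a.1 ⊆ e.1 from h)]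
        · intro c _ hc
          by_cases h : c ⊆ e.1
          · rw [if_pos h] at hc
            exact hμ0 x c hc
          · rw [if_neg h] at hc
            exact absurd rfl hc
      have h2 : ∑ j, (if j ≤ e then dl (ft x) j else 0) = if x ∈ e.1 then 1 else 0 := by
        by_cases h : x ∈ e.1
        · rw [if_pos h, Finset.sum_eq_single (ft x)]
          · rw [if_pos ((hfoot x e).1 h)]
            exact if_pos rfl
          · intro b _ hb
            by_cases h3 : b ≤ e
            · rw [if_pos h3]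
              exact if_neg hb
            · rw [if_neg h3]
          · intro h3
            exact absurd (Finset.mem_univ _) h3
        · rw [if_neg h]
          apply Finset.sum_eq_zero
          intro b _
          by_cases h3 : b ≤ e
          · rw [if_pos h3]
            refine if_neg ?_
            rintro rfl
            exact h ((hfoot x e).2 h3)
          · rw [if_neg h3]
      rw [h1, h2]
    have hTe : ∀ e : VV Λ R, TT e.1 = ∑ x ∈ Rᶜ, MM (X (ft x)) e ^ 2 - ((e.1 \ R).card : ℝ) := by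
      intro e
      have h1 : ((e.1 \ R).card : ℝ) = ∑ x ∈ Rᶜ, (if x ∈ e.1 then (1 : ℝ) else 0) := by
        rw [← Finset.sum_filter, Finset.sum_const, nsmul_eq_mul, mul_one]
        congr 2
        ext x
        rw [Finset.mem_sdiff, Finset.mem_filter, Finset.mem_compl]
        tauto
      rw [h1, ← Finset.sum_sub_distrib]
      apply Finset.sum_congr rfl
      intro x _
      rw [hMM x e]
      by_cases h : x ∈ e.1
      · rw [if_pos h]; ring
      · rw [if_neg h]; ring
    have hQQ : ∑ c ∈ S0 (VV Λ R), Λ.l c.1 * ∑ x ∈ Rᶜ, MM (X (ft x)) c ^ 2 =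
        ∑ u : VV Λ R, (((u.1 \ R).card : ℝ) - ∑ c ∈ T.kids u, ((c.1 \ R).card : ℝ)) *
          QQ (fun c : VV Λ R => Λ.l c.1) (X u) := by
      have h1 : ∑ c ∈ S0 (VV Λ R), Λ.l c.1 * ∑ x ∈ Rᶜ, MM (X (ft x)) c ^ 2 =
          ∑ x ∈ Rᶜ, QQ (fun c : VV Λ R => Λ.l c.1) (X (ft x)) := by
        simp only [qq_eq]
        rw [Finset.sum_comm]
        apply Finset.sum_congr rfl
        intro c _
        rw [Finset.mul_sum]
      rw [h1, ← Finset.sum_fiberwise Rᶜ ft]
      apply Finset.sum_congr rfl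
      intro u _
      have h2 : ∀ x ∈ Rᶜ.filter (fun x => ft x = u),
          QQ (fun c : VV Λ R => Λ.l c.1) (X (ft x)) =
            QQ (fun c : VV Λ R => Λ.l c.1) (X u) := by
        intro x hx
        rw [(Finset.mem_filter.1 hx).2]
      rw [Finset.sum_congr rfl h2, Finset.sum_const, nsmul_eq_mul]
      congr 1
      have h3 := hf2 u.1 u.2.1 u.2.2
      rw [← kidsum' T hT u (fun s => ((s \ R).card : ℝ))] at h3
      rw [← h3]
      congr 2
      ext x
      rw [Finset.mem_filter, Finset.mem_filter, Finset.mem_compl]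
      constructor
      · rintro ⟨h4, h5⟩
        exact ⟨Finset.mem_univ _, h4, congrArg Subtype.val h5⟩
      · rintro ⟨_, h4, h5⟩
        exact ⟨h4, Subtype.ext h5⟩
    have hsum : ∑ e ∈ Λ.V, Λ.l e * TT e = -(m : ℝ) * Λ.l Finset.univ +
        (∑ u : VV Λ R, (((u.1 \ R).card : ℝ) - ∑ c ∈ T.kids u, ((c.1 \ R).card : ℝ)) *
          QQ (fun c : VV Λ R => Λ.l c.1) (X u) -
        ∑ c ∈ S0 (VV Λ R), Λ.l c.1 * ((c.1 \ R).card : ℝ)) := by
      rw [split Λ R hR (fun e => Λ.l e * TT e), hTuniv]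
      have h1 : ∑ d ∈ Λ.V with ¬ (d ∩ R).Nonempty, Λ.l d * TT d = 0 := by
        apply Finset.sum_eq_zero
        intro d hd
        rw [Finset.mem_filter] at hd
        rw [hTno d hd.1 hd.2, mul_zero]
      have h2 : ∑ c ∈ S0 (VV Λ R), Λ.l c.1 * TT c.1 =
          ∑ c ∈ S0 (VV Λ R), Λ.l c.1 * ∑ x ∈ Rᶜ, MM (X (ft x)) c ^ 2 -
          ∑ c ∈ S0 (VV Λ R), Λ.l c.1 * ((c.1 \ R).card : ℝ) := by
        rw [← Finset.sum_sub_distrib]
        apply Finset.sum_congr rfl
        intro c _
        rw [hTe c]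
        ring
      rw [h1, h2, hQQ]
      ring
    have hlen : Λ.len = ∑ c ∈ S0 (VV Λ R), Λ.l c.1 +
        ∑ d ∈ Λ.V with ¬ (d ∩ R).Nonempty, Λ.l d := by
      have h1 := split Λ R hR (fun e => if e ≠ Finset.univ then Λ.l e else 0)
      rw [← Finset.sum_filter] at h1
      have h2 : Λ.len = ∑ d ∈ Λ.V with d ≠ Finset.univ, Λ.l d := rfl
      rw [h2, h1, if_neg (fun h => h rfl), zero_add]
      congr 1
      · apply Finset.sum_congr rfl
        intro c hc
        rw [mem_S0] at hc
        exact if_pos (fun h => hc (Subtype.ext h))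
      · apply Finset.sum_congr rfl
        intro d hd
        rw [Finset.mem_filter] at hd
        refine if_pos ?_
        rintro rfl
        exact hd.2 (by rw [Finset.univ_inter]; exact hR)
    have hR1 := split Λ R hR (fun d => Λ.l d * w0 g m A (d ∩ R).card (d \ R).card)
    have hwuniv : w0 g m A ((Finset.univ : Finset P) ∩ R).card ((Finset.univ : Finset P) \ R).card =
        -(A * m) := by
      rw [Finset.univ_inter, ← Finset.compl_eq_univ_sdiff, hRc, hRcc]
      have hm1 : (m : ℝ) - 1 ≠ 0 := by linarith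
      unfold w0 gm
      push_cast
      field_simp
      ring
    have hno : ∑ d ∈ Λ.V with ¬ (d ∩ R).Nonempty, gm g m A * Λ.l d ≤
        ∑ d ∈ Λ.V with ¬ (d ∩ R).Nonempty, Λ.l d * w0 g m A (d ∩ R).card (d \ R).card := by
      apply Finset.sum_le_sum
      intro d hd
      rw [Finset.mem_filter] at hd
      have hne : d ≠ Finset.univ := by
        rintro rfl
        exact hd.2 (by rw [Finset.univ_inter]; exact hR)
      have hld := Λ.pos d hd.1 hne
      have h0 : (d ∩ R).card = 0 := by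
        rw [Finset.card_eq_zero]
        exact Finset.not_nonempty_iff_eq_empty.1 hd.2
      have h2 : 2 ≤ (d \ R).card := by
        have h3 := Finset.card_inter_add_card_sdiff d R
        have h4 := Λ.two_le d hd.1
        omega
      rw [h0, Nat.cast_zero]
      have h5 : (2 : ℝ) ≤ ((d \ R).card : ℝ) := by exact_mod_cast h2
      have h6 : gm g m A ≤ w0 g m A 0 (d \ R).card := by
        unfold w0
        push_cast
        have : 1 ≤ ((d \ R).card : ℝ) * (((d \ R).card : ℝ) - 1) / 2 := by nlinarith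
        nlinarith
      rw [mul_comm]
      exact mul_le_mul_of_nonneg_left h6 hld.le
    have hlV : 0 ≤ ∑ c ∈ S0 (VV Λ R), Λ.l c.1 :=
      Finset.sum_nonneg (fun c hc => (hl c ((mem_S0 c).1 hc)).le)
    have hlN : 0 ≤ ∑ d ∈ Λ.V with ¬ (d ∩ R).Nonempty, Λ.l d := by
      apply Finset.sum_nonneg
      intro d hd
      rw [Finset.mem_filter] at hd
      refine (Λ.pos d hd.1 ?_).le
      rintro rfl
      exact hd.2 (by rw [Finset.univ_inter]; exact hR)
    have hm2 : 1 / 30 * ∑ d ∈ Λ.V with ¬ (d ∩ R).Nonempty, Λ.l d ≤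
        ∑ d ∈ Λ.V with ¬ (d ∩ R).Nonempty, gm g m A * Λ.l d := by
      rw [← Finset.mul_sum]
      exact mul_le_mul_of_nonneg_right hgam hlN
    have hw1 : ∑ c ∈ S0 (VV Λ R), Λ.l c.1 * w1 g m A (c.1 ∩ R).card (c.1 \ R).card =
        ∑ c ∈ S0 (VV Λ R), Λ.l c.1 * w0 g m A (c.1 ∩ R).card (c.1 \ R).card +
          A * ∑ c ∈ S0 (VV Λ R), Λ.l c.1 * ((c.1 \ R).card : ℝ) := by
      rw [Finset.mul_sum, ← Finset.sum_add_distrib]
      apply Finset.sum_congr rfl
      intro c _
      unfold w1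
      ring
    have hmain' : 1 / 30 * ∑ c ∈ S0 (VV Λ R), Λ.l c.1 +
        A * ∑ u : VV Λ R, (((u.1 \ R).card : ℝ) - ∑ c ∈ T.kids u, ((c.1 \ R).card : ℝ)) *
          QQ (fun c : VV Λ R => Λ.l c.1) (X u) ≤
        ∑ c ∈ S0 (VV Λ R), Λ.l c.1 * w1 g m A (c.1 ∩ R).card (c.1 \ R).card := hmain
    rw [hEn, hsum, hR1, hlen]
    simp only [hwuniv]
    rw [hw1] at hmain'
    nlinarith [hmain', hm2, hno]

end Pool.Agent.MNW.H55
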