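import Pool.Agent.Helper55_MNW.Hom
import Pool.Agent.Helper55_MNW.Lam

set_option autoImplicit false
set_option linter.unusedVariables false

/-!
# The numbers for `m = 10`, `g = 3`, and the tree inequality
-/

namespace Pool.Agent.MNW.H55.G3

theorem nI3 (j : ℕ) (hj : j ≤ 10) (r : ℝ) (hr : 0 ≤ r)
    (hr1 : r ≤ 1) (h3 : 0 ≤ (1 / 4) - 47/50 * r) :
    (1 / 4) ^ 2 / 500 ≤ (1 / 4) * ((1 / 4) - 1 / 8) - 2461/5000 * (1 / 4) ^ 2 -
    (j / 10 : ℝ) * (2 * (1 - 1 / 8) * (1 / 4) - (67/100 - 1 / 8) / 9 * (j - 1) - 2 * (33/100) * r) +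
    8/25 * (((1 / 4) - 9/25 * r) * (((1 / 4) - 9/25 * r) + 2 * (1 - r) * (9/25))) +
    2/25 * (((1 / 4) - 19/50 * r) * (((1 / 4) - 19/50 * r) + 2 * (1 - r) * (19/50))) +
    7/100 * (((1 / 4) - 47/50 * r) * (((1 / 4) - 47/50 * r) + 2 * (1 - r) * (47/50))) := by
  interval_cases j <;> push_cast <;> nlinarith [
    mul_nonneg hr hr, mul_nonneg hr (sub_nonneg.2 hr1), mul_nonneg hr h3,
    mul_nonneg (sub_nonneg.2 hr1) (sub_nonneg.2 hr1), mul_nonneg (sub_nonneg.2 hr1) h3,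
    mul_nonneg h3 h3, sq_nonneg (r - 1167 / 2000), sq_nonneg (r - 47 / 125),
    sq_nonneg (r - 93 / 250)]

theorem nI2 (j : ℕ) (hj : j ≤ 10) (r : ℝ) (hr : 0 ≤ r)
    (hr1 : r ≤ 1) (h3 : 0 ≤ 47/50 * r - (1 / 4)) (h2 : 0 ≤ (1 / 4) - 19/50 * r) :
    (1 / 4) ^ 2 / 500 ≤ (1 / 4) * ((1 / 4) - 1 / 8) - 2461/5000 * (1 / 4) ^ 2 -
    (j / 10 : ℝ) * (2 * (1 - 1 / 8) * (1 / 4) - (67/100 - 1 / 8) / 9 * (j - 1) - 2 * (33/100) * r) +
    8/25 * (((1 / 4) - 9/25 * r) * (((1 / 4) - 9/25 * r) + 2 * (1 - r) * (9/25))) +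
    2/25 * (((1 / 4) - 19/50 * r) * (((1 / 4) - 19/50 * r) + 2 * (1 - r) * (19/50))) := by
  interval_cases j <;> push_cast <;> nlinarith [
    mul_nonneg hr hr, mul_nonneg hr (sub_nonneg.2 hr1), mul_nonneg hr h3, mul_nonneg hr h2,
    mul_nonneg (sub_nonneg.2 hr1) (sub_nonneg.2 hr1), mul_nonneg (sub_nonneg.2 hr1) h3,
    mul_nonneg (sub_nonneg.2 hr1) h2, mul_nonneg h3 h3, mul_nonneg h3 h2, mul_nonneg h2 h2,
    sq_nonneg (r - 1167 / 2000), sq_nonneg (r - 47 / 125), sq_nonneg (r - 93 / 250)]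

theorem nI1 (j : ℕ) (hj : j ≤ 10) (r : ℝ) (hr : 0 ≤ r)
    (hr1 : r ≤ 1) (h2 : 0 ≤ 19/50 * r - (1 / 4)) (h1 : 0 ≤ (1 / 4) - 9/25 * r) :
    (1 / 4) ^ 2 / 500 ≤ (1 / 4) * ((1 / 4) - 1 / 8) - 2461/5000 * (1 / 4) ^ 2 -
    (j / 10 : ℝ) * (2 * (1 - 1 / 8) * (1 / 4) - (67/100 - 1 / 8) / 9 * (j - 1) - 2 * (33/100) * r) +
    8/25 * (((1 / 4) - 9/25 * r) * (((1 / 4) - 9/25 * r) + 2 * (1 - r) * (9/25))) := by
  interval_cases j <;> push_cast <;> nlinarith [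
    mul_nonneg hr hr, mul_nonneg hr (sub_nonneg.2 hr1), mul_nonneg hr h2, mul_nonneg hr h1,
    mul_nonneg (sub_nonneg.2 hr1) (sub_nonneg.2 hr1), mul_nonneg (sub_nonneg.2 hr1) h2,
    mul_nonneg (sub_nonneg.2 hr1) h1, mul_nonneg h2 h2, mul_nonneg h2 h1, mul_nonneg h1 h1,
    sq_nonneg (r - 1167 / 2000), sq_nonneg (r - 47 / 125), sq_nonneg (r - 93 / 250)]

theorem nI0 (j : ℕ) (hj : j ≤ 10) (r : ℝ) (hr : 0 ≤ r)
    (hr1 : r ≤ 1) (h1 : 0 ≤ 9/25 * r - (1 / 4)) :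
    (1 / 4) ^ 2 / 500 ≤ (1 / 4) * ((1 / 4) - 1 / 8) - 2461/5000 * (1 / 4) ^ 2 -
    (j / 10 : ℝ) * (2 * (1 - 1 / 8) * (1 / 4) - (67/100 - 1 / 8) / 9 * (j - 1) - 2 * (33/100) * r) := by
  interval_cases j <;> push_cast <;> nlinarith [
    mul_nonneg hr hr, mul_nonneg hr (sub_nonneg.2 hr1), mul_nonneg hr h1,
    mul_nonneg (sub_nonneg.2 hr1) (sub_nonneg.2 hr1), mul_nonneg (sub_nonneg.2 hr1) h1,
    mul_nonneg h1 h1, sq_nonneg (r - 1167 / 2000), sq_nonneg (r - 47 / 125),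
    sq_nonneg (r - 93 / 250)]

theorem nII3 (j : ℕ) (hj : j ≤ 10) (r : ℝ) (hr : 0 ≤ r)
    (hr1 : r ≤ 1) (h3 : 0 ≤ (1 / 2) - 47/50 * r) :
    (1 / 2) ^ 2 / 500 ≤ (1 / 2) * ((1 / 2) - 1 / 8) - 2461/5000 * (1 / 2) ^ 2 -
    (j / 10 : ℝ) * (2 * (1 - 1 / 8) * (1 / 2) - (67/100 - 1 / 8) / 9 * (j - 1) - 2 * (33/100) * r) +
    8/25 * (((1 / 2) - 9/25 * r) * (((1 / 2) - 9/25 * r) + 2 * (1 - r) * (9/25))) +
    2/25 * (((1 / 2) - 19/50 * r) * (((1 / 2) - 19/50 * r) + 2 * (1 - r) * (19/50))) +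
    7/100 * (((1 / 2) - 47/50 * r) * (((1 / 2) - 47/50 * r) + 2 * (1 - r) * (47/50))) := by
  interval_cases j <;> push_cast <;> nlinarith [
    mul_nonneg hr hr, mul_nonneg hr (sub_nonneg.2 hr1), mul_nonneg hr h3,
    mul_nonneg (sub_nonneg.2 hr1) (sub_nonneg.2 hr1), mul_nonneg (sub_nonneg.2 hr1) h3,
    mul_nonneg h3 h3, sq_nonneg (r - 1167 / 2000), sq_nonneg (r - 47 / 125),
    sq_nonneg (r - 93 / 250)]

theorem nII2 (j : ℕ) (hj : j ≤ 10) (r : ℝ) (hr : 0 ≤ r)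
    (hr1 : r ≤ 1) (h3 : 0 ≤ 47/50 * r - (1 / 2)) (h2 : 0 ≤ (1 / 2) - 19/50 * r) :
    (1 / 2) ^ 2 / 500 ≤ (1 / 2) * ((1 / 2) - 1 / 8) - 2461/5000 * (1 / 2) ^ 2 -
    (j / 10 : ℝ) * (2 * (1 - 1 / 8) * (1 / 2) - (67/100 - 1 / 8) / 9 * (j - 1) - 2 * (33/100) * r) +
    8/25 * (((1 / 2) - 9/25 * r) * (((1 / 2) - 9/25 * r) + 2 * (1 - r) * (9/25))) +
    2/25 * (((1 / 2) - 19/50 * r) * (((1 / 2) - 19/50 * r) + 2 * (1 - r) * (19/50))) := by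
  interval_cases j <;> push_cast <;> nlinarith [
    mul_nonneg hr hr, mul_nonneg hr (sub_nonneg.2 hr1), mul_nonneg hr h3, mul_nonneg hr h2,
    mul_nonneg (sub_nonneg.2 hr1) (sub_nonneg.2 hr1), mul_nonneg (sub_nonneg.2 hr1) h3,
    mul_nonneg (sub_nonneg.2 hr1) h2, mul_nonneg h3 h3, mul_nonneg h3 h2, mul_nonneg h2 h2,
    sq_nonneg (r - 1167 / 2000), sq_nonneg (r - 47 / 125), sq_nonneg (r - 93 / 250)]

theorem nII1 (j : ℕ) (hj : j ≤ 10) (r : ℝ) (hr : 0 ≤ r)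
    (hr1 : r ≤ 1) (h2 : 0 ≤ 19/50 * r - (1 / 2)) (h1 : 0 ≤ (1 / 2) - 9/25 * r) :
    (1 / 2) ^ 2 / 500 ≤ (1 / 2) * ((1 / 2) - 1 / 8) - 2461/5000 * (1 / 2) ^ 2 -
    (j / 10 : ℝ) * (2 * (1 - 1 / 8) * (1 / 2) - (67/100 - 1 / 8) / 9 * (j - 1) - 2 * (33/100) * r) +
    8/25 * (((1 / 2) - 9/25 * r) * (((1 / 2) - 9/25 * r) + 2 * (1 - r) * (9/25))) := by
  interval_cases j <;> push_cast <;> nlinarith [
    mul_nonneg hr hr, mul_nonneg hr (sub_nonneg.2 hr1), mul_nonneg hr h2, mul_nonneg hr h1,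
    mul_nonneg (sub_nonneg.2 hr1) (sub_nonneg.2 hr1), mul_nonneg (sub_nonneg.2 hr1) h2,
    mul_nonneg (sub_nonneg.2 hr1) h1, mul_nonneg h2 h2, mul_nonneg h2 h1, mul_nonneg h1 h1,
    sq_nonneg (r - 1167 / 2000), sq_nonneg (r - 47 / 125), sq_nonneg (r - 93 / 250)]

theorem nII0 (j : ℕ) (hj : j ≤ 10) (r : ℝ) (hr : 0 ≤ r)
    (hr1 : r ≤ 1) (h1 : 0 ≤ 9/25 * r - (1 / 2)) :
    (1 / 2) ^ 2 / 500 ≤ (1 / 2) * ((1 / 2) - 1 / 8) - 2461/5000 * (1 / 2) ^ 2 -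
    (j / 10 : ℝ) * (2 * (1 - 1 / 8) * (1 / 2) - (67/100 - 1 / 8) / 9 * (j - 1) - 2 * (33/100) * r) := by
  interval_cases j <;> push_cast <;> nlinarith [
    mul_nonneg hr hr, mul_nonneg hr (sub_nonneg.2 hr1), mul_nonneg hr h1,
    mul_nonneg (sub_nonneg.2 hr1) (sub_nonneg.2 hr1), mul_nonneg (sub_nonneg.2 hr1) h1,
    mul_nonneg h1 h1, sq_nonneg (r - 1167 / 2000), sq_nonneg (r - 47 / 125),
    sq_nonneg (r - 93 / 250)]

/-- The expression. -/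
noncomputable def S10 (j : ℕ) (x r : ℝ) : ℝ :=
  x * (x - 1 / 8) - 2461/5000 * x ^ 2 -
    (j / 10 : ℝ) * (2 * (1 - 1 / 8) * x - (67/100 - 1 / 8) / 9 * (j - 1) - 2 * (33/100) * r) +
    8/25 * (pp (x - 9/25 * r) * (pp (x - 9/25 * r) + 2 * (1 - r) * (9/25))) +
    2/25 * (pp (x - 19/50 * r) * (pp (x - 19/50 * r) + 2 * (1 - r) * (19/50))) +
    7/100 * (pp (x - 47/50 * r) * (pp (x - 47/50 * r) + 2 * (1 - r) * (47/50)))

theorem sI (j : ℕ) (hj : j ≤ 10) (r : ℝ) (hr : 0 ≤ r)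
    (hr1 : r ≤ 1) : (1 / 4) ^ 2 / 500 ≤ S10 j (1 / 4) r := by
  unfold S10
  rcases le_total (47 / 50 * r) (1 / 4) with h3 | h3
  · have e := nI3 j hj r hr hr1 (by linarith)
    rw [pp_pos (by linarith : 0 ≤ (1 / 4) - 9 / 25 * r), pp_pos (by linarith : 0 ≤ (1 / 4) - 19 / 50 * r),
      pp_pos (by linarith : 0 ≤ (1 / 4) - 47 / 50 * r)]
    exact e
  · rw [pp_neg (by linarith : (1 / 4) - 47 / 50 * r ≤ 0), zero_mul, mul_zero, add_zero]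
    rcases le_total (19 / 50 * r) (1 / 4) with h2 | h2
    · have e := nI2 j hj r hr hr1 (by linarith) (by linarith)
      rw [pp_pos (by linarith : 0 ≤ (1 / 4) - 9 / 25 * r), pp_pos (by linarith : 0 ≤ (1 / 4) - 19 / 50 * r)]
      exact e
    · rw [pp_neg (by linarith : (1 / 4) - 19 / 50 * r ≤ 0), zero_mul, mul_zero, add_zero]
      rcases le_total (9 / 25 * r) (1 / 4) with h1 | h1
      · have e := nI1 j hj r hr hr1 (by linarith) (by linarith)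
        rw [pp_pos (by linarith : 0 ≤ (1 / 4) - 9 / 25 * r)]
        exact e
      · rw [pp_neg (by linarith : (1 / 4) - 9 / 25 * r ≤ 0), zero_mul, mul_zero, add_zero]
        exact nI0 j hj r hr hr1 (by linarith)

theorem sII (j : ℕ) (hj : j ≤ 10) (r : ℝ) (hr : 0 ≤ r)
    (hr1 : r ≤ 1) : (1 / 2) ^ 2 / 500 ≤ S10 j (1 / 2) r := by
  unfold S10
  rcases le_total (47 / 50 * r) (1 / 2) with h3 | h3
  · have e := nII3 j hj r hr hr1 (by linarith)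
    rw [pp_pos (by linarith : 0 ≤ (1 / 2) - 9 / 25 * r), pp_pos (by linarith : 0 ≤ (1 / 2) - 19 / 50 * r),
      pp_pos (by linarith : 0 ≤ (1 / 2) - 47 / 50 * r)]
    exact e
  · rw [pp_neg (by linarith : (1 / 2) - 47 / 50 * r ≤ 0), zero_mul, mul_zero, add_zero]
    rcases le_total (19 / 50 * r) (1 / 2) with h2 | h2
    · have e := nII2 j hj r hr hr1 (by linarith) (by linarith)
      rw [pp_pos (by linarith : 0 ≤ (1 / 2) - 9 / 25 * r), pp_pos (by linarith : 0 ≤ (1 / 2) - 19 / 50 * r)]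
      exact e
    · rw [pp_neg (by linarith : (1 / 2) - 19 / 50 * r ≤ 0), zero_mul, mul_zero, add_zero]
      rcases le_total (9 / 25 * r) (1 / 2) with h1 | h1
      · have e := nII1 j hj r hr hr1 (by linarith) (by linarith)
        rw [pp_pos (by linarith : 0 ≤ (1 / 2) - 9 / 25 * r)]
        exact e
      · rw [pp_neg (by linarith : (1 / 2) - 9 / 25 * r ≤ 0), zero_mul, mul_zero, add_zero]
        exact nII0 j hj r hr hr1 (by linarith)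

/-- The coefficient `A`. -/
noncomputable def A10 : ℝ := 264 / 25

theorem w_eq (b : ℕ) (x r : ℝ) :
    w1 3 10 A10 (8 * x) b - A10 * b * (1 - 2 * r) = 320 * (x * (x - 1 / 8) -
      (b / 10 : ℝ) * (2 * (1 - 1 / 8) * x - (67 / 100 - 1 / 8) / 9 * (b - 1) -
        2 * (33 / 100) * r)) := by
  unfold w1 w0 gm A10
  push_cast
  ring

theorem pw10 :
    Pw 3 10 A10 (2461 / 5000) (9 / 25) (19 / 50) (47 / 50) (8 / 25) (2 / 25) (7 / 100) := by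
  intro a b ha hae hag hb r hr hr1
  obtain ⟨x, hx⟩ : ∃ x : ℝ, x = a / 8 := ⟨_, rfl⟩
  have hax : (a : ℝ) = 8 * x := by
    rw [hx]
    ring
  have har : (2 : ℝ) ≤ a := by exact_mod_cast ha
  have key : x ^ 2 / 500 ≤ S10 b x r := by
    rcases (show a = 2 ∨ a = 4 by obtain ⟨k, hk⟩ := hae; omega) with h | h
    · have h1 : x = 1 / 4 := by
        rw [hx, h]
        norm_num
      rw [h1]
      exact sI b hb r hr hr1
    · have h1 : x = 1 / 2 := by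
        rw [hx, h]
        norm_num
      rw [h1]
      exact sII b hb r hr hr1
  have hw := w_eq b x r
  have hn : (2 * ((3 : ℕ) : ℝ) + 2) = 8 := by norm_num
  rw [hax, hn]
  have e : ∀ τ : ℝ, pp (8 * x - τ * 8 * r) = 8 * pp (x - τ * r) := by
    intro τ
    rw [← pp_mul (by norm_num : (0 : ℝ) ≤ 8)]
    congr 1
    ring
  rw [e, e, e]
  unfold S10 at key
  have h2 : (1 : ℝ) / 30 ≤ 320 * (x ^ 2 / 500) := by
    have h3 : 320 * (x ^ 2 / 500) = 1 / 100 * (a : ℝ) ^ 2 := by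
      rw [hax]
      ring
    rw [h3]
    nlinarith
  have hm9 : ((10 : ℕ) : ℝ) = 10 := by norm_num
  rw [hm9]
  nlinarith [key, h2, hw]

theorem odd10 (a b : ℕ) (ha : Odd a) (ha2 : a ≤ 2 * 3 + 1) (hb : b ≤ 10)
    (hab : 2 ≤ a + b) (hp : a = 2 * 3 + 1 → b < 10) : 1 / 30 ≤ w1 3 10 A10 a b := by
  rcases (show a = 1 ∨ a = 3 ∨ a = 5 ∨ a = 7 by obtain ⟨k, hk⟩ := ha; omega) with
    rfl | rfl | rfl | rfl
  · have h1 : 1 ≤ b := by omega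
    interval_cases b <;> unfold w1 w0 gm A10 <;> norm_num
  · interval_cases b <;> unfold w1 w0 gm A10 <;> norm_num
  · interval_cases b <;> unfold w1 w0 gm A10 <;> norm_num
  · have h1 : b < 10 := hp rfl
    interval_cases b <;> unfold w1 w0 gm A10 <;> norm_num

theorem ti10 : TI 3 10 A10 := by
  refine ti 3 10 A10 (by norm_num) (by norm_num) (by norm_num) ?_ ?_ _
    (cert_of_hom 3 10 A10 (2461 / 5000) (9 / 25) (19 / 50) (47 / 50) (8 / 25) (2 / 25) (7 / 100)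
      (9 / 25) (19 / 50) (47 / 50) (by norm_num) (by norm_num) (by norm_num) (by norm_num) le_rfl
      le_rfl le_rfl ?_ pw10 odd10)
  · unfold A10
    norm_num
  · unfold A10
    norm_num
  · unfold A10
    norm_num

/-- Ten points are enough for `g = 3`. -/
theorem good10 : Good 3 10 := ⟨_, ti10⟩

end Pool.Agent.MNW.H55.G3
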