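import Pool.Agent.Helper55_MNW.Hom
import Pool.Agent.Helper55_MNW.Lam

set_option autoImplicit false
set_option linter.unusedVariables false

/-!
# Genus 2, twelve points
-/

namespace Pool.Agent.MNW.H55.G2

open Pool.Agent.MNT

/-- The coefficient `A`. -/
noncomputable def A12 : ℝ := 63 / 10

/-- The certificate: the exact value of a branch with two roots, without `ε`. -/
noncomputable def M2 (x : ℕ) (p : ℝ) : ℝ :=
  359 / 30 * (1 - p) - 63 / 10 * (pp ((550 / 693) - p) ^ 2 +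
    pp ((463 / 693) - p) ^ 2 +
    pp ((376 / 693) - p) ^ 2 +
    pp ((289 / 693) - p) ^ 2 +
    pp ((202 / 693) - p) ^ 2 +
    pp ((115 / 693) - p) ^ 2 +
    pp ((28 / 693) - p) ^ 2)

theorem w_two (b : ℕ) : w1 2 12 A12 2 b = 12 - 10 * b + 87 / 110 * (b * (b - 1)) + 63 / 10 * b := by
  unfold w1 w0 gm A12
  push_cast
  ring

theorem mono2 (b : ℕ) (hb : b ≤ 12) : MonotoneOn (fun r => M2 2 r +
    (w1 2 12 A12 2 b - 1 / 30) * r - A12 * b * (r * (1 - r))) (Set.Icc 0 1) := by
  have hd : ∀ r : ℝ, HasDerivAt (fun r => M2 2 r + (w1 2 12 A12 2 b - 1 / 30) * r -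
      A12 * b * (r * (1 - r))) (-(359 / 30) + 63 / 5 * (pp ((550 / 693) - r) + pp ((463 / 693) - r) + pp ((376 / 693) - r) + pp ((289 / 693) - r) + pp ((202 / 693) - r) + pp ((115 / 693) - r) + pp ((28 / 693) - r)) +
        (w1 2 12 A12 2 b - 1 / 30) - A12 * b * (1 - 2 * r)) r := by
    intro r
    have f : ∀ x : ℝ, HasDerivAt (fun r => pp (x - r) ^ 2) (-(2 * pp (x - r))) r := by
      intro x
      have := deriv_pp x 1 r
      simp only [one_mul, mul_one] at this
      exact this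
    have e1 := ((((((f (550 / 693)).add (f (463 / 693))).add (f (376 / 693))).add (f (289 / 693))).add (f (202 / 693))).add
      (f (115 / 693))).add (f (28 / 693))
    have e2 := e1.const_mul (63 / 10 : ℝ)
    have e3 : HasDerivAt (fun r : ℝ => 359 / 30 * (1 - r)) (-(359 / 30)) r := by
      have := ((hasDerivAt_id r).const_sub 1).const_mul (359 / 30 : ℝ)
      simpa using this
    have e4 := e3.sub e2
    have e5 : HasDerivAt (fun r : ℝ => (w1 2 12 A12 2 b - 1 / 30) * r)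
        (w1 2 12 A12 2 b - 1 / 30) r := by
      have := (hasDerivAt_id r).const_mul (w1 2 12 A12 2 b - 1 / 30)
      simpa using this
    have e6 : HasDerivAt (fun r : ℝ => A12 * b * (r * (1 - r))) (A12 * b * (1 - 2 * r)) r := by
      have h1 := (hasDerivAt_id r).mul ((hasDerivAt_id r).const_sub 1)
      have h2 := h1.const_mul (A12 * b)
      have h3 : A12 * b * (1 * (1 - id r) + id r * -1) = A12 * b * (1 - 2 * r) := by
        simp only [id]
        ring
      rw [h3] at h2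
      exact h2
    have e7 := (e4.add e5).sub e6
    refine HasDerivAt.congr_deriv e7 ?_
    ring
  apply monotoneOn_of_deriv_nonneg (convex_Icc 0 1)
  · exact fun r _ => (hd r).continuousAt.continuousWithinAt
  · exact fun r _ => (hd r).differentiableAt.differentiableWithinAt
  · intro r hr
    rw [interior_Icc] at hr
    rw [(hd r).deriv, w_two]
    unfold A12
    have a0 := le_pp ((550 / 693) - r)
    have b0 := pp_nn ((550 / 693) - r)
    have a1 := le_pp ((463 / 693) - r)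
    have b1 := pp_nn ((463 / 693) - r)
    have a2 := le_pp ((376 / 693) - r)
    have b2 := pp_nn ((376 / 693) - r)
    have a3 := le_pp ((289 / 693) - r)
    have b3 := pp_nn ((289 / 693) - r)
    have a4 := le_pp ((202 / 693) - r)
    have b4 := pp_nn ((202 / 693) - r)
    have a5 := le_pp ((115 / 693) - r)
    have b5 := pp_nn ((115 / 693) - r)
    have a6 := le_pp ((28 / 693) - r)
    have b6 := pp_nn ((28 / 693) - r)
    have hr0 := hr.1.le
    interval_cases b <;> push_cast <;> linarith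

theorem low (p : ℝ) (hp : 0 < p) (hp1 : p < 1) : p * (1 - p) * (176 / 5 - 30 * p) ≤ M2 2 p := by
  unfold M2
  have q1 : 0 < 1 - p := by linarith
  have c1 := mul_nonneg hp.le (sq_nonneg (p - 1 / 3))
  have c2 := mul_nonneg q1.le (sq_nonneg (p - 1 / 3))
  rcases le_total (550 / 693) p with h0 | h0
  · rw [pp_neg (by linarith : (550 / 693) - p ≤ 0), pp_neg (by linarith : (463 / 693) - p ≤ 0),
      pp_neg (by linarith : (376 / 693) - p ≤ 0), pp_neg (by linarith : (289 / 693) - p ≤ 0),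
      pp_neg (by linarith : (202 / 693) - p ≤ 0), pp_neg (by linarith : (115 / 693) - p ≤ 0),
      pp_neg (by linarith : (28 / 693) - p ≤ 0)]
    nlinarith [mul_nonneg (sub_nonneg.2 h0) q1.le]
  rcases le_total (463 / 693) p with h1 | h1
  · rw [pp_pos (by linarith : 0 ≤ (550 / 693) - p), pp_neg (by linarith : (463 / 693) - p ≤ 0),
      pp_neg (by linarith : (376 / 693) - p ≤ 0), pp_neg (by linarith : (289 / 693) - p ≤ 0),
      pp_neg (by linarith : (202 / 693) - p ≤ 0), pp_neg (by linarith : (115 / 693) - p ≤ 0),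
      pp_neg (by linarith : (28 / 693) - p ≤ 0)]
    nlinarith [mul_nonneg (sub_nonneg.2 h1) (sub_nonneg.2 h0), mul_nonneg (sub_nonneg.2 h1) q1.le,
      mul_nonneg (mul_nonneg (sub_nonneg.2 h1) (sub_nonneg.2 h0)) hp.le,
      mul_nonneg (mul_nonneg (sub_nonneg.2 h1) (sub_nonneg.2 h0)) q1.le]
  rcases le_total (376 / 693) p with h2 | h2
  · rw [pp_pos (by linarith : 0 ≤ (550 / 693) - p), pp_pos (by linarith : 0 ≤ (463 / 693) - p),
      pp_neg (by linarith : (376 / 693) - p ≤ 0), pp_neg (by linarith : (289 / 693) - p ≤ 0),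
      pp_neg (by linarith : (202 / 693) - p ≤ 0), pp_neg (by linarith : (115 / 693) - p ≤ 0),
      pp_neg (by linarith : (28 / 693) - p ≤ 0)]
    nlinarith [mul_nonneg (sub_nonneg.2 h2) (sub_nonneg.2 h1), mul_nonneg (sub_nonneg.2 h2) q1.le,
      mul_nonneg (mul_nonneg (sub_nonneg.2 h2) (sub_nonneg.2 h1)) hp.le,
      mul_nonneg (mul_nonneg (sub_nonneg.2 h2) (sub_nonneg.2 h1)) q1.le]
  rcases le_total (289 / 693) p with h3 | h3
  · rw [pp_pos (by linarith : 0 ≤ (550 / 693) - p), pp_pos (by linarith : 0 ≤ (463 / 693) - p),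
      pp_pos (by linarith : 0 ≤ (376 / 693) - p), pp_neg (by linarith : (289 / 693) - p ≤ 0),
      pp_neg (by linarith : (202 / 693) - p ≤ 0), pp_neg (by linarith : (115 / 693) - p ≤ 0),
      pp_neg (by linarith : (28 / 693) - p ≤ 0)]
    nlinarith [mul_nonneg (sub_nonneg.2 h3) (sub_nonneg.2 h2), mul_nonneg (sub_nonneg.2 h3) q1.le,
      mul_nonneg (mul_nonneg (sub_nonneg.2 h3) (sub_nonneg.2 h2)) hp.le,
      mul_nonneg (mul_nonneg (sub_nonneg.2 h3) (sub_nonneg.2 h2)) q1.le]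
  rcases le_total (202 / 693) p with h4 | h4
  · rw [pp_pos (by linarith : 0 ≤ (550 / 693) - p), pp_pos (by linarith : 0 ≤ (463 / 693) - p),
      pp_pos (by linarith : 0 ≤ (376 / 693) - p), pp_pos (by linarith : 0 ≤ (289 / 693) - p),
      pp_neg (by linarith : (202 / 693) - p ≤ 0), pp_neg (by linarith : (115 / 693) - p ≤ 0),
      pp_neg (by linarith : (28 / 693) - p ≤ 0)]
    nlinarith [mul_nonneg (sub_nonneg.2 h4) (sub_nonneg.2 h3), mul_nonneg (sub_nonneg.2 h4) q1.le,
      mul_nonneg (mul_nonneg (sub_nonneg.2 h4) (sub_nonneg.2 h3)) hp.le,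
      mul_nonneg (mul_nonneg (sub_nonneg.2 h4) (sub_nonneg.2 h3)) q1.le]
  rcases le_total (115 / 693) p with h5 | h5
  · rw [pp_pos (by linarith : 0 ≤ (550 / 693) - p), pp_pos (by linarith : 0 ≤ (463 / 693) - p),
      pp_pos (by linarith : 0 ≤ (376 / 693) - p), pp_pos (by linarith : 0 ≤ (289 / 693) - p),
      pp_pos (by linarith : 0 ≤ (202 / 693) - p), pp_neg (by linarith : (115 / 693) - p ≤ 0),
      pp_neg (by linarith : (28 / 693) - p ≤ 0)]
    nlinarith [mul_nonneg (sub_nonneg.2 h5) (sub_nonneg.2 h4), mul_nonneg (sub_nonneg.2 h5) q1.le,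
      mul_nonneg (mul_nonneg (sub_nonneg.2 h5) (sub_nonneg.2 h4)) hp.le,
      mul_nonneg (mul_nonneg (sub_nonneg.2 h5) (sub_nonneg.2 h4)) q1.le]
  rcases le_total (28 / 693) p with h6 | h6
  · rw [pp_pos (by linarith : 0 ≤ (550 / 693) - p), pp_pos (by linarith : 0 ≤ (463 / 693) - p),
      pp_pos (by linarith : 0 ≤ (376 / 693) - p), pp_pos (by linarith : 0 ≤ (289 / 693) - p),
      pp_pos (by linarith : 0 ≤ (202 / 693) - p), pp_pos (by linarith : 0 ≤ (115 / 693) - p),
      pp_neg (by linarith : (28 / 693) - p ≤ 0)]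
    nlinarith [mul_nonneg (sub_nonneg.2 h6) (sub_nonneg.2 h5), mul_nonneg (sub_nonneg.2 h6) q1.le,
      mul_nonneg (mul_nonneg (sub_nonneg.2 h6) (sub_nonneg.2 h5)) hp.le,
      mul_nonneg (mul_nonneg (sub_nonneg.2 h6) (sub_nonneg.2 h5)) q1.le]
  rw [pp_pos (by linarith : 0 ≤ (550 / 693) - p), pp_pos (by linarith : 0 ≤ (463 / 693) - p),
      pp_pos (by linarith : 0 ≤ (376 / 693) - p), pp_pos (by linarith : 0 ≤ (289 / 693) - p),
      pp_pos (by linarith : 0 ≤ (202 / 693) - p), pp_pos (by linarith : 0 ≤ (115 / 693) - p),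
      pp_pos (by linarith : 0 ≤ (28 / 693) - p)]
  nlinarith [mul_nonneg (sub_nonneg.2 h6) hp.le, mul_nonneg (mul_nonneg (sub_nonneg.2 h6) hp.le) hp.le]

theorem odd12 (a b : ℕ) (ha : Odd a) (ha2 : a ≤ 2 * 2 + 1) (hb : b ≤ 12)
    (hab : 2 ≤ a + b) (hp : a = 2 * 2 + 1 → b < 12) : 1 / 30 ≤ w1 2 12 A12 a b := by
  rcases (show a = 1 ∨ a = 3 ∨ a = 5 by obtain ⟨k, hk⟩ := ha; omega) with rfl | rfl | rfl
  · have h1 : 1 ≤ b := by omega
    interval_cases b <;> unfold w1 w0 gm A12 <;> norm_num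
  · interval_cases b <;> unfold w1 w0 gm A12 <;> norm_num
  · have h1 : b < 12 := hp rfl
    interval_cases b <;> unfold w1 w0 gm A12 <;> norm_num

theorem two_of {x : ℕ} (h1 : 2 ≤ x) (h2 : Even x) (h3 : x ≤ 2 + 1) : x = 2 := by
  obtain ⟨k, hk⟩ := h2
  omega

theorem cert12 : Cert 2 12 A12 M2 := by
  refine ⟨?_, ?_, ?_, ?_, ?_, odd12⟩
  · intro x _ _ _
    unfold M2
    rw [pp_neg (by norm_num : (550 / 693) - (1 : ℝ) ≤ 0),
      pp_neg (by norm_num : (463 / 693) - (1 : ℝ) ≤ 0),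
      pp_neg (by norm_num : (376 / 693) - (1 : ℝ) ≤ 0),
      pp_neg (by norm_num : (289 / 693) - (1 : ℝ) ≤ 0),
      pp_neg (by norm_num : (202 / 693) - (1 : ℝ) ≤ 0),
      pp_neg (by norm_num : (115 / 693) - (1 : ℝ) ≤ 0),
      pp_neg (by norm_num : (28 / 693) - (1 : ℝ) ≤ 0)]
    norm_num
  · intro x _ _ _
    unfold M2
    rw [pp_pos (by norm_num : 0 ≤ (550 / 693) - (0 : ℝ)),
      pp_pos (by norm_num : 0 ≤ (463 / 693) - (0 : ℝ)),
      pp_pos (by norm_num : 0 ≤ (376 / 693) - (0 : ℝ)),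
      pp_pos (by norm_num : 0 ≤ (289 / 693) - (0 : ℝ)),
      pp_pos (by norm_num : 0 ≤ (202 / 693) - (0 : ℝ)),
      pp_pos (by norm_num : 0 ≤ (115 / 693) - (0 : ℝ)),
      pp_pos (by norm_num : 0 ≤ (28 / 693) - (0 : ℝ))]
    norm_num
  · intro x b hx hxe hxg hb p q hp hq hpq
    rw [two_of hx hxe hxg]
    have h4 := mono2 b hb (⟨hp, by linarith⟩ : p ∈ Set.Icc (0 : ℝ) 1)
      (⟨by linarith, by linarith⟩ : 1 - q ∈ Set.Icc (0 : ℝ) 1) (by linarith)
    simp only at h4
    push_cast at h4 ⊢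
    linarith
  · intro I S x p hS hx hsx _
    have h1 : S.card ≤ 1 := by
      have h2 : ∑ i ∈ S, 2 ≤ ∑ i ∈ S, x i := Finset.sum_le_sum fun i hi => (hx i hi).1
      rw [Finset.sum_const, smul_eq_mul] at h2
      omega
    obtain ⟨i, hi⟩ := Finset.card_eq_one.1 (le_antisymm h1 (Finset.card_pos.2 hS))
    rw [hi, Finset.sum_singleton, Finset.sum_singleton, Finset.sum_singleton]
  · intro I S x p hx hsx hsp
    have hx2 : ∀ i ∈ S, x i = 2 := fun i hi => two_of (hx i hi).1 (hx i hi).2.1 (hx i hi).2.2.1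
    have hcard : S.card = 3 := by
      rw [Finset.sum_congr rfl hx2, Finset.sum_const, smul_eq_mul] at hsx
      omega
    have h1 : ∑ i ∈ S, ((176 : ℝ) / 5 - 30 * p i) ≤ ∑ i ∈ S, FM M2 (x i) (p i) := by
      apply Finset.sum_le_sum
      intro i hi
      have hp0 := (hx i hi).2.2.2.1
      have hp1 := (hx i hi).2.2.2.2
      rw [hx2 i hi]
      unfold FM
      rw [le_div_iff₀ (mul_pos hp0 (by linarith))]
      have := low (p i) hp0 hp1
      linarith
    rw [Finset.sum_sub_distrib, ← Finset.mul_sum, hsp, Finset.sum_const, hcard] at h1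
    refine le_trans ?_ h1
    unfold A12
    norm_num

theorem ti12 : TI 2 12 A12 := by
  refine ti 2 12 A12 le_rfl (by norm_num) (by norm_num) ?_ ?_ _ cert12
  · unfold A12
    norm_num
  · unfold A12
    norm_num

/-- Twelve points are enough for `g = 2`. -/
theorem good12 : Good 2 12 := ⟨_, ti12⟩

end Pool.Agent.MNW.H55.G2
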