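import Pool.Agent.Helper55_MNW.O9
import Pool.Agent.Helper55_MNW.C10
import Pool.Agent.Helper55_MNW.C12

set_option autoImplicit false

/-!
# Numbers of points which are enough: 12 for `g = 2`, 10 for `g = 3`, 9 for `g ≥ 4`
-/

namespace Pool.Agent.MNW.H55

/-- 12 points for `g = 2`, 10 for `g = 3`, 9 for `g ≥ 4`. -/
theorem good : Good 2 12 ∧ Good 3 10 ∧ ∀ g : ℕ, 4 ≤ g → Good g 9 :=
  ⟨G2.good12, G3.good10, good9⟩

end Pool.Agent.MNW.H55
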