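import Pool.Agent.Helper55_MNW.Hom

set_option autoImplicit false
set_option linter.unusedVariables false

/-!
# The numbers for `m = 9`, `g ≥ 4`
-/

namespace Pool.Agent.MNW.H55

theorem nI3 (j : ℕ) (hj : j ≤ 9) (x r : ℝ) (hx : 0 < x) (hx1 : x ≤ 1 / 5) (hr : 0 ≤ r)
    (hr1 : r ≤ 1) (h3 : 0 ≤ x - 11/10 * r) :
    x ^ 2 / 500 ≤ x * (x - x / 2) - 247/500 * x ^ 2 -
    (j / 9 : ℝ) * (2 * (1 - x / 2) * x - (67/100 - x / 2) / 8 * (j - 1) - 2 * (33/100) * r) +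
    17/50 * ((x - 33/100 * r) * ((x - 33/100 * r) + 2 * (1 - r) * (33/100))) +
    7/100 * ((x - 3/5 * r) * ((x - 3/5 * r) + 2 * (1 - r) * (3/5))) +
    7/100 * ((x - 11/10 * r) * ((x - 11/10 * r) + 2 * (1 - r) * (11/10))) := by
  interval_cases j <;> push_cast <;> nlinarith [
    mul_nonneg hx.le hx.le, mul_nonneg hx.le hr, mul_nonneg hx.le (sub_nonneg.2 hx1),
    mul_nonneg hx.le (sub_nonneg.2 hr1), mul_nonneg hx.le h3, mul_nonneg hr hr,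
    mul_nonneg hr (sub_nonneg.2 hx1), mul_nonneg hr (sub_nonneg.2 hr1), mul_nonneg hr h3,
    mul_nonneg (sub_nonneg.2 hx1) (sub_nonneg.2 hx1),
    mul_nonneg (sub_nonneg.2 hx1) (sub_nonneg.2 hr1), mul_nonneg (sub_nonneg.2 hx1) h3,
    mul_nonneg (sub_nonneg.2 hr1) (sub_nonneg.2 hr1), mul_nonneg (sub_nonneg.2 hr1) h3,
    mul_nonneg h3 h3, sq_nonneg (x - 59 / 20 * (x - 33 / 100 * r))]

theorem nI2 (j : ℕ) (hj : j ≤ 9) (x r : ℝ) (hx : 0 < x) (hx1 : x ≤ 1 / 5) (hr : 0 ≤ r)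
    (hr1 : r ≤ 1) (h3 : 0 ≤ 11/10 * r - x) (h2 : 0 ≤ x - 3/5 * r) :
    x ^ 2 / 500 ≤ x * (x - x / 2) - 247/500 * x ^ 2 -
    (j / 9 : ℝ) * (2 * (1 - x / 2) * x - (67/100 - x / 2) / 8 * (j - 1) - 2 * (33/100) * r) +
    17/50 * ((x - 33/100 * r) * ((x - 33/100 * r) + 2 * (1 - r) * (33/100))) +
    7/100 * ((x - 3/5 * r) * ((x - 3/5 * r) + 2 * (1 - r) * (3/5))) := by
  interval_cases j <;> push_cast <;> nlinarith [
    mul_nonneg hx.le hx.le, mul_nonneg hx.le hr, mul_nonneg hx.le (sub_nonneg.2 hx1),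
    mul_nonneg hx.le (sub_nonneg.2 hr1), mul_nonneg hx.le h3, mul_nonneg hx.le h2,
    mul_nonneg hr hr, mul_nonneg hr (sub_nonneg.2 hx1), mul_nonneg hr (sub_nonneg.2 hr1),
    mul_nonneg hr h3, mul_nonneg hr h2, mul_nonneg (sub_nonneg.2 hx1) (sub_nonneg.2 hx1),
    mul_nonneg (sub_nonneg.2 hx1) (sub_nonneg.2 hr1), mul_nonneg (sub_nonneg.2 hx1) h3,
    mul_nonneg (sub_nonneg.2 hx1) h2, mul_nonneg (sub_nonneg.2 hr1) (sub_nonneg.2 hr1),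
    mul_nonneg (sub_nonneg.2 hr1) h3, mul_nonneg (sub_nonneg.2 hr1) h2, mul_nonneg h3 h3,
    mul_nonneg h3 h2, mul_nonneg h2 h2, sq_nonneg (x - 59 / 20 * (x - 33 / 100 * r))]

theorem nI1 (j : ℕ) (hj : j ≤ 9) (x r : ℝ) (hx : 0 < x) (hx1 : x ≤ 1 / 5) (hr : 0 ≤ r)
    (hr1 : r ≤ 1) (h2 : 0 ≤ 3/5 * r - x) (h1 : 0 ≤ x - 33/100 * r) :
    x ^ 2 / 500 ≤ x * (x - x / 2) - 247/500 * x ^ 2 -
    (j / 9 : ℝ) * (2 * (1 - x / 2) * x - (67/100 - x / 2) / 8 * (j - 1) - 2 * (33/100) * r) +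
    17/50 * ((x - 33/100 * r) * ((x - 33/100 * r) + 2 * (1 - r) * (33/100))) := by
  interval_cases j <;> push_cast <;> nlinarith [
    mul_nonneg hx.le hx.le, mul_nonneg hx.le hr, mul_nonneg hx.le (sub_nonneg.2 hx1),
    mul_nonneg hx.le (sub_nonneg.2 hr1), mul_nonneg hx.le h2, mul_nonneg hx.le h1,
    mul_nonneg hr hr, mul_nonneg hr (sub_nonneg.2 hx1), mul_nonneg hr (sub_nonneg.2 hr1),
    mul_nonneg hr h2, mul_nonneg hr h1, mul_nonneg (sub_nonneg.2 hx1) (sub_nonneg.2 hx1),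
    mul_nonneg (sub_nonneg.2 hx1) (sub_nonneg.2 hr1), mul_nonneg (sub_nonneg.2 hx1) h2,
    mul_nonneg (sub_nonneg.2 hx1) h1, mul_nonneg (sub_nonneg.2 hr1) (sub_nonneg.2 hr1),
    mul_nonneg (sub_nonneg.2 hr1) h2, mul_nonneg (sub_nonneg.2 hr1) h1, mul_nonneg h2 h2,
    mul_nonneg h2 h1, mul_nonneg h1 h1, sq_nonneg (x - 59 / 20 * (x - 33 / 100 * r))]

theorem nI0 (j : ℕ) (hj : j ≤ 9) (x r : ℝ) (hx : 0 < x) (hx1 : x ≤ 1 / 5) (hr : 0 ≤ r)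
    (hr1 : r ≤ 1) (h1 : 0 ≤ 33/100 * r - x) :
    x ^ 2 / 500 ≤ x * (x - x / 2) - 247/500 * x ^ 2 -
    (j / 9 : ℝ) * (2 * (1 - x / 2) * x - (67/100 - x / 2) / 8 * (j - 1) - 2 * (33/100) * r) := by
  interval_cases j <;> push_cast <;> nlinarith [
    mul_nonneg hx.le hx.le, mul_nonneg hx.le hr, mul_nonneg hx.le (sub_nonneg.2 hx1),
    mul_nonneg hx.le (sub_nonneg.2 hr1), mul_nonneg hx.le h1, mul_nonneg hr hr,
    mul_nonneg hr (sub_nonneg.2 hx1), mul_nonneg hr (sub_nonneg.2 hr1), mul_nonneg hr h1,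
    mul_nonneg (sub_nonneg.2 hx1) (sub_nonneg.2 hx1),
    mul_nonneg (sub_nonneg.2 hx1) (sub_nonneg.2 hr1), mul_nonneg (sub_nonneg.2 hx1) h1,
    mul_nonneg (sub_nonneg.2 hr1) (sub_nonneg.2 hr1), mul_nonneg (sub_nonneg.2 hr1) h1,
    mul_nonneg h1 h1, sq_nonneg (x - 59 / 20 * (x - 33 / 100 * r))]

theorem nII3 (j : ℕ) (hj : j ≤ 9) (x r : ℝ) (hx : 0 < x) (hx1 : x ≤ 2 / 5) (hr : 0 ≤ r)
    (hr1 : r ≤ 1) (h3 : 0 ≤ x - 11/10 * r) :
    x ^ 2 / 500 ≤ x * (x - x / 4) - 247/500 * x ^ 2 -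
    (j / 9 : ℝ) * (2 * (1 - x / 4) * x - (67/100 - x / 4) / 8 * (j - 1) - 2 * (33/100) * r) +
    17/50 * ((x - 33/100 * r) * ((x - 33/100 * r) + 2 * (1 - r) * (33/100))) +
    7/100 * ((x - 3/5 * r) * ((x - 3/5 * r) + 2 * (1 - r) * (3/5))) +
    7/100 * ((x - 11/10 * r) * ((x - 11/10 * r) + 2 * (1 - r) * (11/10))) := by
  interval_cases j <;> push_cast <;> nlinarith [
    mul_nonneg hx.le hx.le, mul_nonneg hx.le hr, mul_nonneg hx.le (sub_nonneg.2 hx1),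
    mul_nonneg hx.le (sub_nonneg.2 hr1), mul_nonneg hx.le h3, mul_nonneg hr hr,
    mul_nonneg hr (sub_nonneg.2 hx1), mul_nonneg hr (sub_nonneg.2 hr1), mul_nonneg hr h3,
    mul_nonneg (sub_nonneg.2 hx1) (sub_nonneg.2 hx1),
    mul_nonneg (sub_nonneg.2 hx1) (sub_nonneg.2 hr1), mul_nonneg (sub_nonneg.2 hx1) h3,
    mul_nonneg (sub_nonneg.2 hr1) (sub_nonneg.2 hr1), mul_nonneg (sub_nonneg.2 hr1) h3,
    mul_nonneg h3 h3, sq_nonneg (x - 59 / 20 * (x - 33 / 100 * r))]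

theorem nII2 (j : ℕ) (hj : j ≤ 9) (x r : ℝ) (hx : 0 < x) (hx1 : x ≤ 2 / 5) (hr : 0 ≤ r)
    (hr1 : r ≤ 1) (h3 : 0 ≤ 11/10 * r - x) (h2 : 0 ≤ x - 3/5 * r) :
    x ^ 2 / 500 ≤ x * (x - x / 4) - 247/500 * x ^ 2 -
    (j / 9 : ℝ) * (2 * (1 - x / 4) * x - (67/100 - x / 4) / 8 * (j - 1) - 2 * (33/100) * r) +
    17/50 * ((x - 33/100 * r) * ((x - 33/100 * r) + 2 * (1 - r) * (33/100))) +
    7/100 * ((x - 3/5 * r) * ((x - 3/5 * r) + 2 * (1 - r) * (3/5))) := by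
  interval_cases j <;> push_cast <;> nlinarith [
    mul_nonneg hx.le hx.le, mul_nonneg hx.le hr, mul_nonneg hx.le (sub_nonneg.2 hx1),
    mul_nonneg hx.le (sub_nonneg.2 hr1), mul_nonneg hx.le h3, mul_nonneg hx.le h2,
    mul_nonneg hr hr, mul_nonneg hr (sub_nonneg.2 hx1), mul_nonneg hr (sub_nonneg.2 hr1),
    mul_nonneg hr h3, mul_nonneg hr h2, mul_nonneg (sub_nonneg.2 hx1) (sub_nonneg.2 hx1),
    mul_nonneg (sub_nonneg.2 hx1) (sub_nonneg.2 hr1), mul_nonneg (sub_nonneg.2 hx1) h3,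
    mul_nonneg (sub_nonneg.2 hx1) h2, mul_nonneg (sub_nonneg.2 hr1) (sub_nonneg.2 hr1),
    mul_nonneg (sub_nonneg.2 hr1) h3, mul_nonneg (sub_nonneg.2 hr1) h2, mul_nonneg h3 h3,
    mul_nonneg h3 h2, mul_nonneg h2 h2, sq_nonneg (x - 59 / 20 * (x - 33 / 100 * r))]

theorem nII1 (j : ℕ) (hj : j ≤ 9) (x r : ℝ) (hx : 0 < x) (hx1 : x ≤ 2 / 5) (hr : 0 ≤ r)
    (hr1 : r ≤ 1) (h2 : 0 ≤ 3/5 * r - x) (h1 : 0 ≤ x - 33/100 * r) :
    x ^ 2 / 500 ≤ x * (x - x / 4) - 247/500 * x ^ 2 -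
    (j / 9 : ℝ) * (2 * (1 - x / 4) * x - (67/100 - x / 4) / 8 * (j - 1) - 2 * (33/100) * r) +
    17/50 * ((x - 33/100 * r) * ((x - 33/100 * r) + 2 * (1 - r) * (33/100))) := by
  interval_cases j <;> push_cast <;> nlinarith [
    mul_nonneg hx.le hx.le, mul_nonneg hx.le hr, mul_nonneg hx.le (sub_nonneg.2 hx1),
    mul_nonneg hx.le (sub_nonneg.2 hr1), mul_nonneg hx.le h2, mul_nonneg hx.le h1,
    mul_nonneg hr hr, mul_nonneg hr (sub_nonneg.2 hx1), mul_nonneg hr (sub_nonneg.2 hr1),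
    mul_nonneg hr h2, mul_nonneg hr h1, mul_nonneg (sub_nonneg.2 hx1) (sub_nonneg.2 hx1),
    mul_nonneg (sub_nonneg.2 hx1) (sub_nonneg.2 hr1), mul_nonneg (sub_nonneg.2 hx1) h2,
    mul_nonneg (sub_nonneg.2 hx1) h1, mul_nonneg (sub_nonneg.2 hr1) (sub_nonneg.2 hr1),
    mul_nonneg (sub_nonneg.2 hr1) h2, mul_nonneg (sub_nonneg.2 hr1) h1, mul_nonneg h2 h2,
    mul_nonneg h2 h1, mul_nonneg h1 h1, sq_nonneg (x - 59 / 20 * (x - 33 / 100 * r))]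

theorem nII0 (j : ℕ) (hj : j ≤ 9) (x r : ℝ) (hx : 0 < x) (hx1 : x ≤ 2 / 5) (hr : 0 ≤ r)
    (hr1 : r ≤ 1) (h1 : 0 ≤ 33/100 * r - x) :
    x ^ 2 / 500 ≤ x * (x - x / 4) - 247/500 * x ^ 2 -
    (j / 9 : ℝ) * (2 * (1 - x / 4) * x - (67/100 - x / 4) / 8 * (j - 1) - 2 * (33/100) * r) := by
  interval_cases j <;> push_cast <;> nlinarith [
    mul_nonneg hx.le hx.le, mul_nonneg hx.le hr, mul_nonneg hx.le (sub_nonneg.2 hx1),
    mul_nonneg hx.le (sub_nonneg.2 hr1), mul_nonneg hx.le h1, mul_nonneg hr hr,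
    mul_nonneg hr (sub_nonneg.2 hx1), mul_nonneg hr (sub_nonneg.2 hr1), mul_nonneg hr h1,
    mul_nonneg (sub_nonneg.2 hx1) (sub_nonneg.2 hx1),
    mul_nonneg (sub_nonneg.2 hx1) (sub_nonneg.2 hr1), mul_nonneg (sub_nonneg.2 hx1) h1,
    mul_nonneg (sub_nonneg.2 hr1) (sub_nonneg.2 hr1), mul_nonneg (sub_nonneg.2 hr1) h1,
    mul_nonneg h1 h1, sq_nonneg (x - 59 / 20 * (x - 33 / 100 * r))]

theorem nIII3 (j : ℕ) (hj : j ≤ 9) (x r : ℝ) (hx : 0 < x) (hx1 : x ≤ 1 / 2) (hr : 0 ≤ r)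
    (hr1 : r ≤ 1) (h3 : 0 ≤ x - 11/10 * r) :
    x ^ 2 / 500 ≤ x * (x - x / 6) - 247/500 * x ^ 2 -
    (j / 9 : ℝ) * (2 * (1 - x / 6) * x - (67/100 - x / 6) / 8 * (j - 1) - 2 * (33/100) * r) +
    17/50 * ((x - 33/100 * r) * ((x - 33/100 * r) + 2 * (1 - r) * (33/100))) +
    7/100 * ((x - 3/5 * r) * ((x - 3/5 * r) + 2 * (1 - r) * (3/5))) +
    7/100 * ((x - 11/10 * r) * ((x - 11/10 * r) + 2 * (1 - r) * (11/10))) := by
  interval_cases j <;> push_cast <;> nlinarith [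
    mul_nonneg hx.le hx.le, mul_nonneg hx.le hr, mul_nonneg hx.le (sub_nonneg.2 hx1),
    mul_nonneg hx.le (sub_nonneg.2 hr1), mul_nonneg hx.le h3, mul_nonneg hr hr,
    mul_nonneg hr (sub_nonneg.2 hx1), mul_nonneg hr (sub_nonneg.2 hr1), mul_nonneg hr h3,
    mul_nonneg (sub_nonneg.2 hx1) (sub_nonneg.2 hx1),
    mul_nonneg (sub_nonneg.2 hx1) (sub_nonneg.2 hr1), mul_nonneg (sub_nonneg.2 hx1) h3,
    mul_nonneg (sub_nonneg.2 hr1) (sub_nonneg.2 hr1), mul_nonneg (sub_nonneg.2 hr1) h3,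
    mul_nonneg h3 h3, sq_nonneg (x - 59 / 20 * (x - 33 / 100 * r))]

theorem nIII2 (j : ℕ) (hj : j ≤ 9) (x r : ℝ) (hx : 0 < x) (hx1 : x ≤ 1 / 2) (hr : 0 ≤ r)
    (hr1 : r ≤ 1) (h3 : 0 ≤ 11/10 * r - x) (h2 : 0 ≤ x - 3/5 * r) :
    x ^ 2 / 500 ≤ x * (x - x / 6) - 247/500 * x ^ 2 -
    (j / 9 : ℝ) * (2 * (1 - x / 6) * x - (67/100 - x / 6) / 8 * (j - 1) - 2 * (33/100) * r) +
    17/50 * ((x - 33/100 * r) * ((x - 33/100 * r) + 2 * (1 - r) * (33/100))) +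
    7/100 * ((x - 3/5 * r) * ((x - 3/5 * r) + 2 * (1 - r) * (3/5))) := by
  interval_cases j <;> push_cast <;> nlinarith [
    mul_nonneg hx.le hx.le, mul_nonneg hx.le hr, mul_nonneg hx.le (sub_nonneg.2 hx1),
    mul_nonneg hx.le (sub_nonneg.2 hr1), mul_nonneg hx.le h3, mul_nonneg hx.le h2,
    mul_nonneg hr hr, mul_nonneg hr (sub_nonneg.2 hx1), mul_nonneg hr (sub_nonneg.2 hr1),
    mul_nonneg hr h3, mul_nonneg hr h2, mul_nonneg (sub_nonneg.2 hx1) (sub_nonneg.2 hx1),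
    mul_nonneg (sub_nonneg.2 hx1) (sub_nonneg.2 hr1), mul_nonneg (sub_nonneg.2 hx1) h3,
    mul_nonneg (sub_nonneg.2 hx1) h2, mul_nonneg (sub_nonneg.2 hr1) (sub_nonneg.2 hr1),
    mul_nonneg (sub_nonneg.2 hr1) h3, mul_nonneg (sub_nonneg.2 hr1) h2, mul_nonneg h3 h3,
    mul_nonneg h3 h2, mul_nonneg h2 h2, sq_nonneg (x - 59 / 20 * (x - 33 / 100 * r))]

theorem nIII1 (j : ℕ) (hj : j ≤ 9) (x r : ℝ) (hx : 0 < x) (hx1 : x ≤ 1 / 2) (hr : 0 ≤ r)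
    (hr1 : r ≤ 1) (h2 : 0 ≤ 3/5 * r - x) (h1 : 0 ≤ x - 33/100 * r) :
    x ^ 2 / 500 ≤ x * (x - x / 6) - 247/500 * x ^ 2 -
    (j / 9 : ℝ) * (2 * (1 - x / 6) * x - (67/100 - x / 6) / 8 * (j - 1) - 2 * (33/100) * r) +
    17/50 * ((x - 33/100 * r) * ((x - 33/100 * r) + 2 * (1 - r) * (33/100))) := by
  interval_cases j <;> push_cast <;> nlinarith [
    mul_nonneg hx.le hx.le, mul_nonneg hx.le hr, mul_nonneg hx.le (sub_nonneg.2 hx1),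
    mul_nonneg hx.le (sub_nonneg.2 hr1), mul_nonneg hx.le h2, mul_nonneg hx.le h1,
    mul_nonneg hr hr, mul_nonneg hr (sub_nonneg.2 hx1), mul_nonneg hr (sub_nonneg.2 hr1),
    mul_nonneg hr h2, mul_nonneg hr h1, mul_nonneg (sub_nonneg.2 hx1) (sub_nonneg.2 hx1),
    mul_nonneg (sub_nonneg.2 hx1) (sub_nonneg.2 hr1), mul_nonneg (sub_nonneg.2 hx1) h2,
    mul_nonneg (sub_nonneg.2 hx1) h1, mul_nonneg (sub_nonneg.2 hr1) (sub_nonneg.2 hr1),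
    mul_nonneg (sub_nonneg.2 hr1) h2, mul_nonneg (sub_nonneg.2 hr1) h1, mul_nonneg h2 h2,
    mul_nonneg h2 h1, mul_nonneg h1 h1, sq_nonneg (x - 59 / 20 * (x - 33 / 100 * r))]

theorem nIII0 (j : ℕ) (hj : j ≤ 9) (x r : ℝ) (hx : 0 < x) (hx1 : x ≤ 1 / 2) (hr : 0 ≤ r)
    (hr1 : r ≤ 1) (h1 : 0 ≤ 33/100 * r - x) :
    x ^ 2 / 500 ≤ x * (x - x / 6) - 247/500 * x ^ 2 -
    (j / 9 : ℝ) * (2 * (1 - x / 6) * x - (67/100 - x / 6) / 8 * (j - 1) - 2 * (33/100) * r) := by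
  interval_cases j <;> push_cast <;> nlinarith [
    mul_nonneg hx.le hx.le, mul_nonneg hx.le hr, mul_nonneg hx.le (sub_nonneg.2 hx1),
    mul_nonneg hx.le (sub_nonneg.2 hr1), mul_nonneg hx.le h1, mul_nonneg hr hr,
    mul_nonneg hr (sub_nonneg.2 hx1), mul_nonneg hr (sub_nonneg.2 hr1), mul_nonneg hr h1,
    mul_nonneg (sub_nonneg.2 hx1) (sub_nonneg.2 hx1),
    mul_nonneg (sub_nonneg.2 hx1) (sub_nonneg.2 hr1), mul_nonneg (sub_nonneg.2 hx1) h1,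
    mul_nonneg (sub_nonneg.2 hr1) (sub_nonneg.2 hr1), mul_nonneg (sub_nonneg.2 hr1) h1,
    mul_nonneg h1 h1, sq_nonneg (x - 59 / 20 * (x - 33 / 100 * r))]

/-- The expression. -/
noncomputable def S9 (j : ℕ) (x r η : ℝ) : ℝ :=
  x * (x - η) - 247/500 * x ^ 2 -
    (j / 9 : ℝ) * (2 * (1 - η) * x - (67/100 - η) / 8 * (j - 1) - 2 * (33/100) * r) +
    17/50 * (pp (x - 33/100 * r) * (pp (x - 33/100 * r) + 2 * (1 - r) * (33/100))) +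
    7/100 * (pp (x - 3/5 * r) * (pp (x - 3/5 * r) + 2 * (1 - r) * (3/5))) +
    7/100 * (pp (x - 11/10 * r) * (pp (x - 11/10 * r) + 2 * (1 - r) * (11/10)))

theorem sI (j : ℕ) (hj : j ≤ 9) (x r : ℝ) (hx : 0 < x) (hx1 : x ≤ 1 / 5) (hr : 0 ≤ r)
    (hr1 : r ≤ 1) : x ^ 2 / 500 ≤ S9 j x r (x / 2) := by
  unfold S9
  rcases le_total (11 / 10 * r) x with h3 | h3
  · have e := nI3 j hj x r hx hx1 hr hr1 (by linarith)
    rw [pp_pos (by linarith : 0 ≤ x - 33 / 100 * r), pp_pos (by linarith : 0 ≤ x - 3 / 5 * r),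
      pp_pos (by linarith : 0 ≤ x - 11 / 10 * r)]
    exact e
  · rw [pp_neg (by linarith : x - 11 / 10 * r ≤ 0), zero_mul, mul_zero, add_zero]
    rcases le_total (3 / 5 * r) x with h2 | h2
    · have e := nI2 j hj x r hx hx1 hr hr1 (by linarith) (by linarith)
      rw [pp_pos (by linarith : 0 ≤ x - 33 / 100 * r), pp_pos (by linarith : 0 ≤ x - 3 / 5 * r)]
      exact e
    · rw [pp_neg (by linarith : x - 3 / 5 * r ≤ 0), zero_mul, mul_zero, add_zero]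
      rcases le_total (33 / 100 * r) x with h1 | h1
      · have e := nI1 j hj x r hx hx1 hr hr1 (by linarith) (by linarith)
        rw [pp_pos (by linarith : 0 ≤ x - 33 / 100 * r)]
        exact e
      · rw [pp_neg (by linarith : x - 33 / 100 * r ≤ 0), zero_mul, mul_zero, add_zero]
        exact nI0 j hj x r hx hx1 hr hr1 (by linarith)

theorem sII (j : ℕ) (hj : j ≤ 9) (x r : ℝ) (hx : 0 < x) (hx1 : x ≤ 2 / 5) (hr : 0 ≤ r)
    (hr1 : r ≤ 1) : x ^ 2 / 500 ≤ S9 j x r (x / 4) := by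
  unfold S9
  rcases le_total (11 / 10 * r) x with h3 | h3
  · have e := nII3 j hj x r hx hx1 hr hr1 (by linarith)
    rw [pp_pos (by linarith : 0 ≤ x - 33 / 100 * r), pp_pos (by linarith : 0 ≤ x - 3 / 5 * r),
      pp_pos (by linarith : 0 ≤ x - 11 / 10 * r)]
    exact e
  · rw [pp_neg (by linarith : x - 11 / 10 * r ≤ 0), zero_mul, mul_zero, add_zero]
    rcases le_total (3 / 5 * r) x with h2 | h2
    · have e := nII2 j hj x r hx hx1 hr hr1 (by linarith) (by linarith)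
      rw [pp_pos (by linarith : 0 ≤ x - 33 / 100 * r), pp_pos (by linarith : 0 ≤ x - 3 / 5 * r)]
      exact e
    · rw [pp_neg (by linarith : x - 3 / 5 * r ≤ 0), zero_mul, mul_zero, add_zero]
      rcases le_total (33 / 100 * r) x with h1 | h1
      · have e := nII1 j hj x r hx hx1 hr hr1 (by linarith) (by linarith)
        rw [pp_pos (by linarith : 0 ≤ x - 33 / 100 * r)]
        exact e
      · rw [pp_neg (by linarith : x - 33 / 100 * r ≤ 0), zero_mul, mul_zero, add_zero]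
        exact nII0 j hj x r hx hx1 hr hr1 (by linarith)

theorem sIII (j : ℕ) (hj : j ≤ 9) (x r : ℝ) (hx : 0 < x) (hx1 : x ≤ 1 / 2) (hr : 0 ≤ r)
    (hr1 : r ≤ 1) : x ^ 2 / 500 ≤ S9 j x r (x / 6) := by
  unfold S9
  rcases le_total (11 / 10 * r) x with h3 | h3
  · have e := nIII3 j hj x r hx hx1 hr hr1 (by linarith)
    rw [pp_pos (by linarith : 0 ≤ x - 33 / 100 * r), pp_pos (by linarith : 0 ≤ x - 3 / 5 * r),
      pp_pos (by linarith : 0 ≤ x - 11 / 10 * r)]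
    exact e
  · rw [pp_neg (by linarith : x - 11 / 10 * r ≤ 0), zero_mul, mul_zero, add_zero]
    rcases le_total (3 / 5 * r) x with h2 | h2
    · have e := nIII2 j hj x r hx hx1 hr hr1 (by linarith) (by linarith)
      rw [pp_pos (by linarith : 0 ≤ x - 33 / 100 * r), pp_pos (by linarith : 0 ≤ x - 3 / 5 * r)]
      exact e
    · rw [pp_neg (by linarith : x - 3 / 5 * r ≤ 0), zero_mul, mul_zero, add_zero]
      rcases le_total (33 / 100 * r) x with h1 | h1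
      · have e := nIII1 j hj x r hx hx1 hr hr1 (by linarith) (by linarith)
        rw [pp_pos (by linarith : 0 ≤ x - 33 / 100 * r)]
        exact e
      · rw [pp_neg (by linarith : x - 33 / 100 * r ≤ 0), zero_mul, mul_zero, add_zero]
        exact nIII0 j hj x r hx hx1 hr hr1 (by linarith)

theorem sMono (j : ℕ) (hj : j ≤ 9) (x r η : ℝ) (hx : 0 < x) (hx1 : x ≤ 1 / 2) (hη : η ≤ x / 6) :
    S9 j x r (x / 6) ≤ S9 j x r η := by
  have h : 0 ≤ (x / 6 - η) * (x - (j / 9 : ℝ) * (2 * x - ((j : ℝ) - 1) / 8)) := by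
    apply mul_nonneg (by linarith)
    interval_cases j <;> push_cast <;> linarith
  unfold S9
  linarith

/-- The three families together. -/
theorem s9 (j : ℕ) (hj : j ≤ 9) (x r η : ℝ) (hx : 0 < x) (hr : 0 ≤ r) (hr1 : r ≤ 1)
    (h : (η = x / 2 ∧ x ≤ 1 / 5) ∨ (η = x / 4 ∧ x ≤ 2 / 5) ∨ (η ≤ x / 6 ∧ x ≤ 1 / 2)) :
    x ^ 2 / 500 ≤ S9 j x r η := by
  rcases h with ⟨rfl, h⟩ | ⟨rfl, h⟩ | ⟨h1, h⟩
  · exact sI j hj x r hx h hr hr1
  · exact sII j hj x r hx h hr hr1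
  · exact (sIII j hj x r hx h hr hr1).trans (sMono j hj x r η hx h h1)

/-- The coefficient `A`. -/
noncomputable def A9 (g : ℕ) : ℝ := 33 / 50 * ((g : ℝ) + 1) ^ 2

theorem w_eq (g b : ℕ) (x r n : ℝ) (hn : n = 2 * g + 2) :
    w1 g 9 (A9 g) (n * x) b - A9 g * b * (1 - 2 * r) = 9 / 2 * n ^ 2 * (x * (x - 1 / n) -
      (b / 9 : ℝ) * (2 * (1 - 1 / n) * x - (67 / 100 - 1 / n) / 8 * (b - 1) -
        2 * (33 / 100) * r)) := by
  have hn0 : n ≠ 0 := by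
    rw [hn]
    positivity
  have hg : (g : ℝ) = (n - 2) / 2 := by linarith
  unfold w1 w0 gm A9
  rw [hg]
  push_cast
  field_simp
  ring

theorem pw9 (g : ℕ) (hg : 4 ≤ g) :
    Pw g 9 (A9 g) (247 / 500) (33 / 100) (3 / 5) (11 / 10) (17 / 50) (7 / 100) (7 / 100) := by
  intro a b ha hae hag hb r hr hr1
  have hgr : (4 : ℝ) ≤ g := by exact_mod_cast hg
  obtain ⟨n, hn⟩ : ∃ n : ℝ, n = 2 * g + 2 := ⟨_, rfl⟩
  have hn0 : 0 < n := by linarith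
  have har : (2 : ℝ) ≤ a := by exact_mod_cast ha
  obtain ⟨x, hx⟩ : ∃ x : ℝ, x = a / n := ⟨_, rfl⟩
  have hax : (a : ℝ) = n * x := by
    rw [hx]
    field_simp
  have hx0 : 0 < x := by
    rw [hx]
    exact div_pos (by linarith) hn0
  have hx2 : x ≤ 1 / 2 := by
    rw [hx, div_le_iff₀ hn0, hn]
    have : (a : ℝ) ≤ g + 1 := by exact_mod_cast hag
    linarith
  have hfam : ((1 / n : ℝ) = x / 2 ∧ x ≤ 1 / 5) ∨ ((1 / n : ℝ) = x / 4 ∧ x ≤ 2 / 5) ∨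
      ((1 / n : ℝ) ≤ x / 6 ∧ x ≤ 1 / 2) := by
    rcases (show a = 2 ∨ a = 4 ∨ 6 ≤ a by obtain ⟨k, hk⟩ := hae; omega) with h | h | h
    · left
      rw [hx, h]
      refine ⟨by push_cast; ring, ?_⟩
      rw [div_le_iff₀ hn0]
      push_cast
      linarith
    · right; left
      rw [hx, h]
      refine ⟨by push_cast; ring, ?_⟩
      rw [div_le_iff₀ hn0]
      push_cast
      linarith
    · right; right
      refine ⟨?_, hx2⟩
      have h6 : (6 : ℝ) ≤ a := by exact_mod_cast h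
      rw [hx, div_div, mul_comm n 6, ← div_div, div_le_div_iff_of_pos_right hn0]
      linarith
  have key := s9 b hb x r (1 / n) hx0 hr hr1 hfam
  have hw := w_eq g b x r n hn
  rw [hax, ← hn]
  have e : ∀ τ : ℝ, pp (n * x - τ * n * r) = n * pp (x - τ * r) := by
    intro τ
    rw [← pp_mul hn0.le]
    congr 1
    ring
  rw [e, e, e]
  unfold S9 at key
  have h1 := mul_le_mul_of_nonneg_left key (show (0 : ℝ) ≤ 9 / 2 * n ^ 2 by positivity)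
  have h2 : (1 : ℝ) / 30 ≤ 9 / 2 * n ^ 2 * (x ^ 2 / 500) := by
    have h3 : 9 / 2 * n ^ 2 * (x ^ 2 / 500) = 9 / 1000 * (a : ℝ) ^ 2 := by
      rw [hax]
      ring
    rw [h3]
    nlinarith
  have hm9 : ((9 : ℕ) : ℝ) = 9 := by norm_num
  rw [hm9]
  nlinarith [h1, h2, hw]

end Pool.Agent.MNW.H55
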