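import Pool.Agent.Helper55_MNW.Tree

set_option autoImplicit false

/-!
# Certificates from a convex piecewise quadratic function
`f(t) = g₀ t² - ∑ λ_k (t - t_k)_+²`, `M(x, p) = (m/2) p² (1 - p) n² f(x/(n p))`.
-/

namespace Pool.Agent.MNW.H55

open Pool.Agent.MNT
open scoped Classical

/-- positive part -/
noncomputable def pp (y : ℝ) : ℝ := max y 0

theorem pp_nn (y : ℝ) : 0 ≤ pp y := le_max_right _ _
theorem le_pp (y : ℝ) : y ≤ pp y := le_max_left _ _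
theorem pp_pos {y : ℝ} (h : 0 ≤ y) : pp y = y := max_eq_left h
theorem pp_neg {y : ℝ} (h : y ≤ 0) : pp y = 0 := max_eq_right h

theorem pp_mul {n y : ℝ} (hn : 0 ≤ n) : pp (n * y) = n * pp y := by
  rcases le_total 0 y with h | h
  · rw [pp_pos h, pp_pos (mul_nonneg hn h)]
  · rw [pp_neg h, pp_neg (mul_nonpos_of_nonneg_of_nonpos hn h), mul_zero]

theorem hasDerivAt_pp_sq (y : ℝ) : HasDerivAt (fun y => pp y ^ 2) (2 * pp y) y := by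
  rcases lt_trichotomy y 0 with h | h | h
  · rw [pp_neg h.le, mul_zero]
    apply (hasDerivAt_const y (0 : ℝ)).congr_of_eventuallyEq
    filter_upwards [gt_mem_nhds h] with z hz
    rw [pp_neg hz.le]
    simp
  · subst h
    rw [pp_neg le_rfl, mul_zero]
    rw [hasDerivAt_iff_isLittleO]
    have h1 : (fun x' : ℝ => pp x' ^ 2 - pp 0 ^ 2 - (x' - 0) • (0 : ℝ)) = fun x' => pp x' ^ 2 := by
      funext z
      rw [pp_neg (le_refl (0 : ℝ))]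
      simp
    rw [h1]
    have h2 : (fun x' : ℝ => x' - 0) = fun x' => x' := by
      funext z
      simp
    rw [h2]
    have h3 : (fun x' : ℝ => x' ^ 2) =o[nhds 0] fun x' => x' := by
      have := Asymptotics.isLittleO_pow_id (𝕜 := ℝ) (n := 2) (by norm_num)
      exact this
    refine Asymptotics.IsBigO.trans_isLittleO ?_ h3
    refine Asymptotics.IsBigO.of_bound 1 (Filter.Eventually.of_forall fun z => ?_)
    rw [one_mul, Real.norm_eq_abs, Real.norm_eq_abs, abs_of_nonneg (sq_nonneg _),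
      abs_of_nonneg (sq_nonneg _)]
    rcases le_total 0 z with h | h
    · rw [pp_pos h]
    · rw [pp_neg h, zero_pow (by norm_num)]
      exact sq_nonneg z
  · rw [pp_pos h.le]
    have h2 : HasDerivAt (fun y : ℝ => y ^ 2) (2 * y) y := by
      simpa using hasDerivAt_pow 2 y
    apply h2.congr_of_eventuallyEq
    filter_upwards [lt_mem_nhds h] with z hz
    rw [pp_pos hz.le]

/-- `(n/...)`: the bracket `g₀ x² - ∑ λ_k (x - t_k n p)_+²` -/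
noncomputable def br (n g₀ t₁ t₂ t₃ k₁ k₂ k₃ x p : ℝ) : ℝ :=
  g₀ * x ^ 2 - k₁ * pp (x - t₁ * n * p) ^ 2 - k₂ * pp (x - t₂ * n * p) ^ 2 -
    k₃ * pp (x - t₃ * n * p) ^ 2

/-- The certificate function. -/
noncomputable def HM (m n g₀ t₁ t₂ t₃ k₁ k₂ k₃ : ℝ) (x : ℕ) (p : ℝ) : ℝ :=
  m / 2 * (1 - p) * br n g₀ t₁ t₂ t₃ k₁ k₂ k₃ x p

/-- supporting line for one piece -/
theorem piece (x p τ μ : ℝ) (hp : 0 ≤ p) (hμ : μ ≤ τ) :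
    (2 * x * μ - μ ^ 2 * p) * p ≤ x ^ 2 - pp (x - τ * p) ^ 2 := by
  rcases le_total 0 (x - τ * p) with h | h
  · rw [pp_pos h]
    have h1 : 0 ≤ (τ - μ) * p * (2 * (x - τ * p) + (τ - μ) * p) := by
      have h2 : 0 ≤ (τ - μ) * p := mul_nonneg (by linarith) hp
      positivity
    nlinarith
  · rw [pp_neg h]
    nlinarith [sq_nonneg (x - μ * p)]

/-- equality for the right choice of the slope -/
theorem piece_eq (x p τ : ℝ) (hp : 0 < p) (μ : ℝ) (hμ : μ = min (x / p) τ) :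
    (2 * x * μ - μ ^ 2 * p) * p = x ^ 2 - pp (x - τ * p) ^ 2 := by
  rcases le_total (x / p) τ with h | h
  · rw [min_eq_left h] at hμ
    rw [div_le_iff₀ hp] at h
    rw [pp_neg (by linarith), hμ]
    field_simp
    ring
  · rw [min_eq_right h] at hμ
    rw [le_div_iff₀ hp] at h
    rw [pp_pos (by linarith), hμ]
    ring

/-- the linear functional -/
noncomputable def LF (m c₀ k₁ k₂ k₃ μ₀ μ₁ μ₂ μ₃ x p : ℝ) : ℝ :=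
  m / 2 * (x * (2 * (c₀ * μ₀ + k₁ * μ₁ + k₂ * μ₂ + k₃ * μ₃)) -
    p * (c₀ * μ₀ ^ 2 + k₁ * μ₁ ^ 2 + k₂ * μ₂ ^ 2 + k₃ * μ₃ ^ 2))

theorem FM_eq (m n g₀ t₁ t₂ t₃ k₁ k₂ k₃ : ℝ) (x : ℕ) (p : ℝ) (hp : 0 < p) (hp1 : p < 1) :
    FM (HM m n g₀ t₁ t₂ t₃ k₁ k₂ k₃) x p = m / 2 * (br n g₀ t₁ t₂ t₃ k₁ k₂ k₃ x p / p) := by
  unfold FM HM
  have : 0 < 1 - p := by linarith
  field_simp

theorem LF_le {m n g₀ t₁ t₂ t₃ k₁ k₂ k₃ : ℝ} (hm : 0 ≤ m) (h0 : 0 ≤ g₀ - k₁ - k₂ - k₃)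
    (h1 : 0 ≤ k₁) (h2 : 0 ≤ k₂) (h3 : 0 ≤ k₃) (μ₀ μ₁ μ₂ μ₃ : ℝ) (hμ1 : μ₁ ≤ t₁ * n)
    (hμ2 : μ₂ ≤ t₂ * n) (hμ3 : μ₃ ≤ t₃ * n) (x : ℕ) (p : ℝ) (hp : 0 < p) (hp1 : p < 1) :
    LF m (g₀ - k₁ - k₂ - k₃) k₁ k₂ k₃ μ₀ μ₁ μ₂ μ₃ x p ≤
      FM (HM m n g₀ t₁ t₂ t₃ k₁ k₂ k₃) x p := by
  rw [FM_eq _ _ _ _ _ _ _ _ _ _ _ hp hp1]
  unfold LF
  apply mul_le_mul_of_nonneg_left _ (by linarith)
  rw [le_div_iff₀ hp]
  have e0 : (2 * (x : ℝ) * μ₀ - μ₀ ^ 2 * p) * p ≤ (x : ℝ) ^ 2 := by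
    nlinarith [sq_nonneg ((x : ℝ) - μ₀ * p)]
  have e1 := mul_le_mul_of_nonneg_left (piece x p (t₁ * n) μ₁ hp.le hμ1) h1
  have e2 := mul_le_mul_of_nonneg_left (piece x p (t₂ * n) μ₂ hp.le hμ2) h2
  have e3 := mul_le_mul_of_nonneg_left (piece x p (t₃ * n) μ₃ hp.le hμ3) h3
  have e0' := mul_le_mul_of_nonneg_left e0 h0
  unfold br
  linarith

theorem LF_eq {m n g₀ t₁ t₂ t₃ k₁ k₂ k₃ : ℝ} (x : ℕ) (p : ℝ) (hp : 0 < p) (hp1 : p < 1)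
    (μ₀ μ₁ μ₂ μ₃ : ℝ) (hμ0 : μ₀ = x / p) (hμ1 : μ₁ = min (x / p) (t₁ * n))
    (hμ2 : μ₂ = min (x / p) (t₂ * n)) (hμ3 : μ₃ = min (x / p) (t₃ * n)) :
    FM (HM m n g₀ t₁ t₂ t₃ k₁ k₂ k₃) x p =
      LF m (g₀ - k₁ - k₂ - k₃) k₁ k₂ k₃ μ₀ μ₁ μ₂ μ₃ x p := by
  rw [FM_eq _ _ _ _ _ _ _ _ _ _ _ hp hp1]
  unfold LF
  congr 1
  rw [div_eq_iff hp.ne']
  have e0 : (2 * (x : ℝ) * μ₀ - μ₀ ^ 2 * p) * p = (x : ℝ) ^ 2 := by
    rw [hμ0]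
    field_simp
    ring
  have e1 := piece_eq x p (t₁ * n) hp μ₁ hμ1
  have e2 := piece_eq x p (t₂ * n) hp μ₂ hμ2
  have e3 := piece_eq x p (t₃ * n) hp μ₃ hμ3
  unfold br
  have h : (x * (2 * ((g₀ - k₁ - k₂ - k₃) * μ₀ + k₁ * μ₁ + k₂ * μ₂ + k₃ * μ₃)) -
      p * ((g₀ - k₁ - k₂ - k₃) * μ₀ ^ 2 + k₁ * μ₁ ^ 2 + k₂ * μ₂ ^ 2 + k₃ * μ₃ ^ 2)) * p =
      (g₀ - k₁ - k₂ - k₃) * ((2 * (x : ℝ) * μ₀ - μ₀ ^ 2 * p) * p) +
      k₁ * ((2 * (x : ℝ) * μ₁ - μ₁ ^ 2 * p) * p) +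
      k₂ * ((2 * (x : ℝ) * μ₂ - μ₂ ^ 2 * p) * p) +
      k₃ * ((2 * (x : ℝ) * μ₃ - μ₃ ^ 2 * p) * p) := by ring
  rw [h, e0, e1, e2, e3]
  ring

theorem LF_sum (m c₀ k₁ k₂ k₃ μ₀ μ₁ μ₂ μ₃ : ℝ) (I : Type) (S : Finset I) (x : I → ℕ)
    (p : I → ℝ) : ∑ i ∈ S, LF m c₀ k₁ k₂ k₃ μ₀ μ₁ μ₂ μ₃ (x i) (p i) =
      LF m c₀ k₁ k₂ k₃ μ₀ μ₁ μ₂ μ₃ ((∑ i ∈ S, x i : ℕ) : ℝ) (∑ i ∈ S, p i) := by
  unfold LF
  rw [← Finset.mul_sum, Finset.sum_sub_distrib, ← Finset.sum_mul, ← Finset.sum_mul]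
  push_cast
  rfl

/-- The pointwise condition. -/
def Pw (g m : ℕ) (A g₀ t₁ t₂ t₃ k₁ k₂ k₃ : ℝ) : Prop :=
  ∀ x b : ℕ, 2 ≤ x → Even x → x ≤ g + 1 → b ≤ m → ∀ r : ℝ, 0 ≤ r → r ≤ 1 →
    0 ≤ w1 g m A x b - 1 / 30 - A * b * (1 - 2 * r) - (m : ℝ) / 2 * (g₀ * (x : ℝ) ^ 2) +
      (m : ℝ) / 2 * (
        k₁ * (pp (x - t₁ * (2 * g + 2) * r) *
          (pp (x - t₁ * (2 * g + 2) * r) + 2 * (1 - r) * (t₁ * (2 * g + 2)))) +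
        k₂ * (pp (x - t₂ * (2 * g + 2) * r) *
          (pp (x - t₂ * (2 * g + 2) * r) + 2 * (1 - r) * (t₂ * (2 * g + 2)))) +
        k₃ * (pp (x - t₃ * (2 * g + 2) * r) *
          (pp (x - t₃ * (2 * g + 2) * r) + 2 * (1 - r) * (t₃ * (2 * g + 2)))))

theorem deriv_pp (x τ r : ℝ) : HasDerivAt (fun r => pp (x - τ * r) ^ 2)
    (-(2 * τ * pp (x - τ * r))) r := by
  have h1 : HasDerivAt (fun r : ℝ => x - τ * r) (-τ) r := by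
    have := ((hasDerivAt_id r).const_mul τ).const_sub x
    simpa using this
  have h2 := (hasDerivAt_pp_sq (x - τ * r)).comp r h1
  have h3 : 2 * pp (x - τ * r) * -τ = -(2 * τ * pp (x - τ * r)) := by ring
  rw [h3] at h2
  exact h2

/-- monotonicity along an edge -/
theorem edge_mono (c d e n g₀ t₁ t₂ t₃ k₁ k₂ k₃ x : ℝ)
    (h : ∀ r : ℝ, 0 ≤ r → r ≤ 1 → 0 ≤ d - e * (1 - 2 * r) - c * (g₀ * x ^ 2) + c * (
        k₁ * (pp (x - t₁ * n * r) * (pp (x - t₁ * n * r) + 2 * (1 - r) * (t₁ * n))) +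
        k₂ * (pp (x - t₂ * n * r) * (pp (x - t₂ * n * r) + 2 * (1 - r) * (t₂ * n))) +
        k₃ * (pp (x - t₃ * n * r) * (pp (x - t₃ * n * r) + 2 * (1 - r) * (t₃ * n))))) :
    MonotoneOn (fun r => c * (1 - r) * br n g₀ t₁ t₂ t₃ k₁ k₂ k₃ x r + d * r -
      e * (r * (1 - r))) (Set.Icc 0 1) := by
  have hd : ∀ r : ℝ, HasDerivAt (fun r => c * (1 - r) * br n g₀ t₁ t₂ t₃ k₁ k₂ k₃ x r + d * r -
      e * (r * (1 - r))) (d - e * (1 - 2 * r) - c * (g₀ * x ^ 2) + c * (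
        k₁ * (pp (x - t₁ * n * r) * (pp (x - t₁ * n * r) + 2 * (1 - r) * (t₁ * n))) +
        k₂ * (pp (x - t₂ * n * r) * (pp (x - t₂ * n * r) + 2 * (1 - r) * (t₂ * n))) +
        k₃ * (pp (x - t₃ * n * r) * (pp (x - t₃ * n * r) + 2 * (1 - r) * (t₃ * n))))) r := by
    intro r
    have e1 := (deriv_pp x (t₁ * n) r).const_mul k₁
    have e2 := (deriv_pp x (t₂ * n) r).const_mul k₂
    have e3 := (deriv_pp x (t₃ * n) r).const_mul k₃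
    have e4 := (((hasDerivAt_const r (g₀ * x ^ 2)).sub e1).sub e2).sub e3
    have e5 : HasDerivAt (fun r : ℝ => c * (1 - r)) (-c) r := by
      have := ((hasDerivAt_id r).const_sub 1).const_mul c
      simpa using this
    have e6 := e5.mul e4
    have e7 : HasDerivAt (fun r : ℝ => d * r) d r := by
      have := (hasDerivAt_id r).const_mul d
      simpa using this
    have e8 : HasDerivAt (fun r : ℝ => e * (r * (1 - r))) (e * (1 - 2 * r)) r := by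
      have h1 := (hasDerivAt_id r).mul ((hasDerivAt_id r).const_sub 1)
      have h2 := h1.const_mul e
      have h3 : e * (1 * (1 - id r) + id r * -1) = e * (1 - 2 * r) := by
        simp only [id]
        ring
      rw [h3] at h2
      exact h2
    have e9 := (e6.add e7).sub e8
    refine (HasDerivAt.congr_deriv e9 ?_)
    simp only [Pi.sub_apply]
    ring
  apply monotoneOn_of_deriv_nonneg (convex_Icc 0 1)
  · exact fun r _ => (hd r).continuousAt.continuousWithinAt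
  · exact fun r _ => (hd r).differentiableAt.differentiableWithinAt
  · intro r hr
    rw [interior_Icc] at hr
    rw [(hd r).deriv]
    exact h r hr.1.le hr.2.le

theorem cert_of_hom (g m : ℕ) (A g₀ t₁ t₂ t₃ k₁ k₂ k₃ ν₁ ν₂ ν₃ : ℝ)
    (h0 : 0 ≤ g₀ - k₁ - k₂ - k₃) (h1 : 0 ≤ k₁) (h2 : 0 ≤ k₂) (h3 : 0 ≤ k₃)
    (hν1 : ν₁ ≤ t₁) (hν2 : ν₂ ≤ t₂) (hν3 : ν₃ ≤ t₃)
    (hroot : A * m ≤ (m : ℝ) / 2 * (2 * (g : ℝ) + 2) ^ 2 *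
      ((g₀ - k₁ - k₂ - k₃) + k₁ * (2 * ν₁ - ν₁ ^ 2) + k₂ * (2 * ν₂ - ν₂ ^ 2) +
        k₃ * (2 * ν₃ - ν₃ ^ 2)))
    (hPw : Pw g m A g₀ t₁ t₂ t₃ k₁ k₂ k₃)
    (hodd : ∀ a b : ℕ, Odd a → a ≤ 2 * g + 1 → b ≤ m → 2 ≤ a + b → (a = 2 * g + 1 → b < m) →
      1 / 30 ≤ w1 g m A a b) :
    Cert g m A (HM m (2 * g + 2) g₀ t₁ t₂ t₃ k₁ k₂ k₃) := by
  have hm0 : (0 : ℝ) ≤ (m : ℝ) := Nat.cast_nonneg m
  refine ⟨?_, ?_, ?_, ?_, ?_, hodd⟩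
  · intro x _ _ _
    unfold HM
    simp
  · intro x hx _ _
    unfold HM br
    have hx0 : (0 : ℝ) ≤ (x : ℝ) := Nat.cast_nonneg x
    simp only [mul_zero, sub_zero, mul_one]
    rw [pp_pos hx0]
    have : 0 ≤ (g₀ - k₁ - k₂ - k₃) * (x : ℝ) ^ 2 := mul_nonneg h0 (sq_nonneg _)
    have h4 : (0 : ℝ) ≤ (m : ℝ) / 2 := by linarith
    apply mul_nonneg h4
    linarith
  · intro x b hx hxe hxg hb p q hp hq hpq
    have h4 := edge_mono ((m : ℝ) / 2) (w1 g m A x b - 1 / 30) (A * b) (2 * g + 2) g₀ t₁ t₂ t₃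
      k₁ k₂ k₃ x (fun r hr hr1 => hPw x b hx hxe hxg hb r hr hr1)
    have h5 := h4 (⟨hp, by linarith⟩ : p ∈ Set.Icc (0 : ℝ) 1)
      (⟨by linarith, by linarith⟩ : 1 - q ∈ Set.Icc (0 : ℝ) 1) (by linarith)
    simp only at h5
    unfold HM
    linarith
  · intro I S x p hS hx hsx hsp
    have hppos : 0 < ∑ i ∈ S, p i := Finset.sum_pos (fun i hi => (hx i hi).2.2) hS
    have hp1 : ∀ i ∈ S, p i < 1 := by
      intro i hi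
      have := Finset.single_le_sum (f := p) (fun j hj => (hx j hj).2.2.le) hi
      linarith
    obtain ⟨μ₀, hμ0⟩ : ∃ μ₀, μ₀ = ((∑ i ∈ S, x i : ℕ) : ℝ) / ∑ i ∈ S, p i := ⟨_, rfl⟩
    obtain ⟨μ₁, hμ1⟩ : ∃ μ₁, μ₁ = min μ₀ (t₁ * (2 * g + 2)) := ⟨_, rfl⟩
    obtain ⟨μ₂, hμ2⟩ : ∃ μ₂, μ₂ = min μ₀ (t₂ * (2 * g + 2)) := ⟨_, rfl⟩
    obtain ⟨μ₃, hμ3⟩ : ∃ μ₃, μ₃ = min μ₀ (t₃ * (2 * g + 2)) := ⟨_, rfl⟩
    rw [LF_eq (∑ i ∈ S, x i) (∑ i ∈ S, p i) hppos hsp μ₀ μ₁ μ₂ μ₃ hμ0 (hμ0 ▸ hμ1) (hμ0 ▸ hμ2)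
      (hμ0 ▸ hμ3), ← LF_sum]
    apply Finset.sum_le_sum
    intro i hi
    exact LF_le hm0 h0 h1 h2 h3 μ₀ μ₁ μ₂ μ₃ (by rw [hμ1]; exact min_le_right _ _)
      (by rw [hμ2]; exact min_le_right _ _) (by rw [hμ3]; exact min_le_right _ _) (x i) (p i)
      (hx i hi).2.2 (hp1 i hi)
  · intro I S x p hx hsx hsp
    have hn : (0 : ℝ) ≤ 2 * g + 2 := by positivity
    have h4 : ∑ i ∈ S, LF m (g₀ - k₁ - k₂ - k₃) k₁ k₂ k₃ (2 * g + 2) (ν₁ * (2 * g + 2))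
        (ν₂ * (2 * g + 2)) (ν₃ * (2 * g + 2)) (x i) (p i) ≤
        ∑ i ∈ S, FM (HM m (2 * g + 2) g₀ t₁ t₂ t₃ k₁ k₂ k₃) (x i) (p i) := by
      apply Finset.sum_le_sum
      intro i hi
      exact LF_le hm0 h0 h1 h2 h3 _ _ _ _ (mul_le_mul_of_nonneg_right hν1 hn)
        (mul_le_mul_of_nonneg_right hν2 hn) (mul_le_mul_of_nonneg_right hν3 hn) (x i) (p i)
        (hx i hi).2.2.2.1 (hx i hi).2.2.2.2
    rw [LF_sum, hsx, hsp] at h4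
    refine le_trans ?_ h4
    refine hroot.trans (le_of_eq ?_)
    unfold LF
    push_cast
    ring

end Pool.Agent.MNW.H55
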