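import Pool.Agent.Helper55_MNW.C9
import Pool.Agent.Helper55_MNW.Lam

set_option autoImplicit false

/-!
# Odd clusters for `m = 9`, `g ≥ 4`, and the tree inequality
-/

namespace Pool.Agent.MNW.H55

theorem o1 (j : ℕ) (hj : j ≤ 9) (x : ℝ) (hx : 0 < x) (hx1 : x ≤ 1 / 2) :
    x ^ 2 / 500 ≤ x * (x - x / 3) - (j / 9 : ℝ) * (2 * (1 - x / 3) * x -
      (67 / 100 - x / 3) / 8 * (j - 1) - 2 * (33 / 100) * (1 / 2)) := by
  interval_cases j <;> push_cast <;> nlinarith [mul_nonneg hx.le (sub_nonneg.2 hx1),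
    mul_nonneg (sub_nonneg.2 hx1) (sub_nonneg.2 hx1), mul_nonneg hx.le hx.le]

theorem o2 (j : ℕ) (hj : j ≤ 9) (x η : ℝ) (hx : 0 < x) (hx1 : x ≤ 1 / 2) (hη : η ≤ x / 3) :
    x ^ 2 / 500 ≤ x * (x - η) - (j / 9 : ℝ) * (2 * (1 - η) * x -
      (67 / 100 - η) / 8 * (j - 1) - 2 * (33 / 100) * (1 / 2)) := by
  have h : 0 ≤ (x / 3 - η) * (x - (j / 9 : ℝ) * (2 * x - ((j : ℝ) - 1) / 8)) := by
    apply mul_nonneg (by linarith)
    interval_cases j <;> push_cast <;> linarith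
  have := o1 j hj x hx hx1
  linarith

theorem odd9a (g : ℕ) (hg : 4 ≤ g) (a b : ℕ) (ha : Odd a) (hag : a ≤ g + 1) (hb : b ≤ 9)
    (hab : 2 ≤ a + b) : 1 / 30 ≤ w1 g 9 (A9 g) a b := by
  have hgr : (4 : ℝ) ≤ g := by exact_mod_cast hg
  rcases (show a = 1 ∨ 3 ≤ a by obtain ⟨k, hk⟩ := ha; omega) with h | h
  · -- one root
    have hb1 : (1 : ℝ) ≤ b := by exact_mod_cast (show 1 ≤ b by omega)
    rw [h]
    have e1 : 0 ≤ gm g 9 (A9 g) := by
      unfold gm A9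
      apply div_nonneg
      · nlinarith
      · norm_num
    have e2 : 0 ≤ (b : ℝ) * (b - 1) / 2 := by
      have := mul_nonneg (show (0 : ℝ) ≤ b by linarith) (show (0 : ℝ) ≤ (b : ℝ) - 1 by linarith)
      linarith
    have e3 := mul_nonneg e1 e2
    have e4 : 1 ≤ A9 g - (2 * g + 1) := by
      unfold A9
      nlinarith
    have e5 : 1 ≤ (A9 g - (2 * g + 1)) * b := by nlinarith
    unfold w1 w0
    push_cast
    linarith
  · obtain ⟨n, hn⟩ : ∃ n : ℝ, n = 2 * g + 2 := ⟨_, rfl⟩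
    have hn0 : 0 < n := by linarith
    have har : (3 : ℝ) ≤ a := by exact_mod_cast h
    obtain ⟨x, hx⟩ : ∃ x : ℝ, x = a / n := ⟨_, rfl⟩
    have hax : (a : ℝ) = n * x := by
      rw [hx]
      field_simp
    have hx0 : 0 < x := by
      rw [hx]
      exact div_pos (by linarith) hn0
    have hx2 : x ≤ 1 / 2 := by
      rw [hx, div_le_iff₀ hn0, hn]
      have : (a : ℝ) ≤ g + 1 := by exact_mod_cast hag
      linarith
    have hη : 1 / n ≤ x / 3 := by
      rw [hx, div_div, mul_comm n 3, ← div_div, div_le_div_iff_of_pos_right hn0]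
      linarith
    have key := o2 b hb x (1 / n) hx0 hx2 hη
    have hw := w_eq g b x (1 / 2) n hn
    have h1 := mul_le_mul_of_nonneg_left key (show (0 : ℝ) ≤ 9 / 2 * n ^ 2 by positivity)
    have h2 : (1 : ℝ) / 30 ≤ 9 / 2 * n ^ 2 * (x ^ 2 / 500) := by
      have h3 : 9 / 2 * n ^ 2 * (x ^ 2 / 500) = 9 / 1000 * (a : ℝ) ^ 2 := by
        rw [hax]
        ring
      rw [h3]
      nlinarith
    rw [← hax] at hw
    linarith

theorem odd9 (g : ℕ) (hg : 4 ≤ g) (a b : ℕ) (ha : Odd a) (ha2 : a ≤ 2 * g + 1) (hb : b ≤ 9)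
    (hab : 2 ≤ a + b) (hp : a = 2 * g + 1 → b < 9) : 1 / 30 ≤ w1 g 9 (A9 g) a b := by
  by_cases h : a ≤ g + 1
  · exact odd9a g hg a b ha h hb hab
  · have h1 := odd9a g hg (2 * g + 2 - a) (9 - b) (by
      obtain ⟨k, hk⟩ := ha
      exact ⟨g - k, by omega⟩) (by omega) (by omega) (by
      rcases (show a = 2 * g + 1 ∨ a + 2 ≤ 2 * g + 1 by obtain ⟨k, hk⟩ := ha; omega) with h | h
      · have := hp h
        omega
      · omega)
    have h2 := H77.syw g 9 (A9 g) a b (by norm_num)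
    rw [Nat.cast_sub (by omega), Nat.cast_sub (by omega)] at h1
    push_cast at h1 h2
    rw [h2] at h1
    exact h1

theorem ti9 (g : ℕ) (hg : 4 ≤ g) : TI g 9 (A9 g) := by
  have hgr : (4 : ℝ) ≤ g := by exact_mod_cast hg
  refine ti g 9 (A9 g) (by omega) le_rfl (by norm_num) ?_ ?_ _
    (cert_of_hom g 9 (A9 g) (247 / 500) (33 / 100) (3 / 5) (11 / 10) (17 / 50) (7 / 100) (7 / 100)
      (33 / 100) (3 / 5) 1 (by norm_num) (by norm_num) (by norm_num) (by norm_num) le_rfl le_rfl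
      (by norm_num) ?_ (pw9 g hg) (odd9 g hg))
  · unfold A9
    positivity
  · unfold A9
    nlinarith [sq_nonneg ((g : ℝ) + 1)]
  · unfold A9
    push_cast
    nlinarith [sq_nonneg ((g : ℝ) + 1)]

/-- Nine points are enough for `g ≥ 4`. -/
theorem good9 (g : ℕ) (hg : 4 ≤ g) : Good g 9 := ⟨_, ti9 g hg⟩

end Pool.Agent.MNW.H55
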