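import Pool.Agent.MNW.StmtsT
import Pool.Agent.Helper77_MNW.SYW
import Pool.Agent.Helper30_MNT.HED
import Pool.Agent.Helper50_MNT.SBP
import Pool.Agent.Helper77_MNT.RES
import Pool.Agent.Helper56_MNT.FPL
import Pool.Agent.Helper56_MNT.FDN
import Pool.Agent.Helper89_MNT.FUP
import Pool.Agent.Helper89_MNT.FLO

set_option autoImplicit false

/-!
# The tree inequality from a certificate

Let `n = 2 g + 2`. For an edge with `x ≤ n / 2` roots on the side away from the centroid and current
fraction `p` (the part of a unit current entering at the near end which uses the edge) the contribution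
of everything beyond is at least `L M(x, p)`, `L` the resistance of the loop through the edge.
-/

namespace Pool.Agent.MNW.H55

open Pool.Agent.MNT
open scoped Classical

/-- `M x p` per unit of `p (1 - p)` -/
noncomputable def FM (M : ℕ → ℝ → ℝ) (x : ℕ) (p : ℝ) : ℝ := M x p / (p * (1 - p))

/-- A certificate for the tree inequality. -/
structure Cert (g m : ℕ) (A : ℝ) (M : ℕ → ℝ → ℝ) : Prop where
  leaf : ∀ x : ℕ, 2 ≤ x → Even x → x ≤ g + 1 → M x 1 = 0
  zero : ∀ x : ℕ, 2 ≤ x → Even x → x ≤ g + 1 → 0 ≤ M x 0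
  edge : ∀ x b : ℕ, 2 ≤ x → Even x → x ≤ g + 1 → b ≤ m → ∀ p q : ℝ, 0 ≤ p → 0 ≤ q → p + q ≤ 1 →
    M x p - M x (1 - q) ≤ (1 - p - q) * (w1 g m A x b - 1 / 30) -
      A * b * (q * (1 - q) - p * (1 - p))
  node : ∀ (I : Type) (S : Finset I) (x : I → ℕ) (p : I → ℝ), S.Nonempty →
    (∀ i ∈ S, 2 ≤ x i ∧ Even (x i) ∧ 0 < p i) → ∑ i ∈ S, x i ≤ g + 1 → ∑ i ∈ S, p i < 1 →
    FM M (∑ i ∈ S, x i) (∑ i ∈ S, p i) ≤ ∑ i ∈ S, FM M (x i) (p i)
  root : ∀ (I : Type) (S : Finset I) (x : I → ℕ) (p : I → ℝ),
    (∀ i ∈ S, 2 ≤ x i ∧ Even (x i) ∧ x i ≤ g + 1 ∧ 0 < p i ∧ p i < 1) →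
    ∑ i ∈ S, x i = 2 * g + 2 → ∑ i ∈ S, p i = 1 →
    A * m ≤ ∑ i ∈ S, FM M (x i) (p i)
  odd : ∀ a b : ℕ, Odd a → a ≤ 2 * g + 1 → b ≤ m → 2 ≤ a + b → (a = 2 * g + 1 → b < m) →
    1 / 30 ≤ w1 g m A a b

section tree

variable {V : Type} [Fintype V] [PartialOrder V] [OrderTop V]

/-- value at the upper end of the edge `c` -/
noncomputable def tv (g m : ℕ) (A : ℝ) (M : ℕ → ℝ → ℝ) (T : MNT.Tree V) (a : V → ℕ)
    (l s r : V → ℝ) (c : V) : ℝ :=
  if Odd (a c) then 0
  else if a c ≤ g + 1 then (s c + l c + r c) * M (a c) (r c / (s c + l c + r c))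
  else -((s c + l c + r c) * M (2 * g + 2 - a c) (1 - r c / (s c + l c + r c))) +
    A * m * hh l s r (T.par c)

/-- value at the lower end of the edge `c` -/
noncomputable def bv (g m : ℕ) (A : ℝ) (M : ℕ → ℝ → ℝ) (a : V → ℕ)
    (l s r : V → ℝ) (c : V) : ℝ :=
  if Odd (a c) then 0
  else if a c ≤ g + 1 then -((s c + l c + r c) * M (a c) (1 - s c / (s c + l c + r c)))
  else (s c + l c + r c) * M (2 * g + 2 - a c) (s c / (s c + l c + r c)) - A * m * hh l s r c

variable {g m : ℕ} {A : ℝ} {M : ℕ → ℝ → ℝ} {T : MNT.Tree V} {G : V → Prop} {a b : V → ℕ}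
  {l s r : V → ℝ}

theorem s_nn (hR : Res T G l s r) (v : V) : 0 ≤ s v := by
  by_cases hg : G v
  · rw [hR.s_grd v hg]
  · exact (hR.s_pos v hg).le

theorem r_nn (hR : Res T G l s r) (c : V) (hc : c ≠ ⊤) : 0 ≤ r c := by
  by_cases hg : G (T.par c)
  · rw [hR.r_grd c hc hg]
  · exact (hR.r_pos c hc hg).le

theorem hh_grd (hR : Res T G l s r) (v : V) (hv : G v) : hh l s r v = 0 := by
  unfold hh
  rw [hR.s_grd v hv]
  simp

theorem edge_le (hm : 2 ≤ m) (hC : Cert g m A M) (hl : ∀ c, c ≠ ⊤ → 0 < l c) (hLa : La g m T G a b)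
    (hR : Res T G l s r) (c : V) (hc : c ≠ ⊤) :
    tv g m A M T a l s r c + bv g m A M a l s r c ≤
      l c * (w1 g m A (a c) (b c) - 1 / 30) - A * b c * (hh l s r c - hh l s r (T.par c)) := by
  have hlc := hl c hc
  have hs := s_nn hR c
  have hr := r_nn hR c hc
  have hL : 0 < s c + l c + r c := by linarith
  have hpar := (MNT.H30.hed V T G l s r hl hLa.top hR c hc).1
  have hhc : hh l s r c = s c * (l c + r c) / (s c + l c + r c) := rfl
  by_cases ho : Odd (a c)
  · -- both ends are grounded
    have hGc : G c := by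
      by_contra h
      exact (Nat.not_even_iff_odd.2 ho) (hLa.even c h)
    have hGp : G (T.par c) := by
      by_contra h
      exact (Nat.not_even_iff_odd.2 ho) (hLa.kids_even _ h c ((T.mem_kids _ _).2 ⟨hc, rfl⟩))
    rw [hh_grd hR c hGc, hh_grd hR _ hGp]
    unfold tv bv
    rw [if_pos ho, if_pos ho]
    have h1 := hC.odd (a c) (b c) ho (hLa.a_le c) (hLa.b_le c) (hLa.two_le c)
      (hLa.proper c hc)
    have h2 : 0 ≤ l c * (w1 g m A (a c) (b c) - 1 / 30) := mul_nonneg hlc.le (by linarith)
    linarith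
  · have he : Even (a c) := Nat.not_odd_iff_even.1 ho
    have ha1 := hLa.a_pos c
    have ha2 := hLa.a_le c
    have ha3 : 2 ≤ a c := by
      obtain ⟨k, hk⟩ := he
      omega
    obtain ⟨p, hp⟩ : ∃ p, p = r c / (s c + l c + r c) := ⟨_, rfl⟩
    obtain ⟨q, hq⟩ : ∃ q, q = s c / (s c + l c + r c) := ⟨_, rfl⟩
    have hp0 : 0 ≤ p := by rw [hp]; exact div_nonneg hr hL.le
    have hq0 : 0 ≤ q := by rw [hq]; exact div_nonneg hs hL.le
    have h1 : (s c + l c + r c) * (1 - p - q) = l c := by
      rw [hp, hq]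
      field_simp
      ring
    have hpq : p + q ≤ 1 := by
      by_contra h
      have : (s c + l c + r c) * (1 - p - q) < 0 := mul_neg_of_pos_of_neg hL (by linarith)
      linarith
    have h2 : (s c + l c + r c) * (q * (1 - q)) = hh l s r c := by
      rw [hhc, hq]
      field_simp
      ring
    have h3 : (s c + l c + r c) * (p * (1 - p)) = hh l s r (T.par c) := by
      rw [hpar, hp]
      field_simp
      ring
    unfold tv bv
    rw [if_neg ho, if_neg ho, ← hp, ← hq]
    by_cases hs2 : a c ≤ g + 1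
    · rw [if_pos hs2, if_pos hs2]
      have h4 := hC.edge (a c) (b c) ha3 he hs2 (hLa.b_le c) p q hp0 hq0 hpq
      have h5 := mul_le_mul_of_nonneg_left h4 hL.le
      rw [← h2, ← h3]
      have h6 : (s c + l c + r c) * ((1 - p - q) * (w1 g m A (a c) (b c) - 1 / 30) -
          A * b c * (q * (1 - q) - p * (1 - p))) =
          ((s c + l c + r c) * (1 - p - q)) * (w1 g m A (a c) (b c) - 1 / 30) -
          A * b c * ((s c + l c + r c) * (q * (1 - q)) - (s c + l c + r c) * (p * (1 - p))) := by
        ring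
      rw [h6, h1] at h5
      linarith
    · rw [if_neg hs2, if_neg hs2]
      have he' : Even (2 * g + 2 - a c) := by
        obtain ⟨k, hk⟩ := he
        exact ⟨g + 1 - k, by omega⟩
      have ha4 : 2 ≤ 2 * g + 2 - a c := by
        obtain ⟨k, hk⟩ := he
        omega
      have h4 := hC.edge (2 * g + 2 - a c) (m - b c) ha4 he' (by omega) (by omega) q p hq0 hp0
        (by linarith)
      have h7 : w1 g m A ((2 * g + 2 - a c : ℕ) : ℝ) ((m - b c : ℕ) : ℝ) =
          w1 g m A (a c) (b c) := by
        rw [← H77.syw g m A (a c) (b c) hm, Nat.cast_sub (by omega), Nat.cast_sub (hLa.b_le c)]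
        push_cast
        ring_nf
      rw [h7, Nat.cast_sub (hLa.b_le c)] at h4
      have h5 := mul_le_mul_of_nonneg_left h4 hL.le
      rw [← h2, ← h3]
      have h6 : (s c + l c + r c) * ((1 - q - p) * (w1 g m A (a c) (b c) - 1 / 30) -
          A * ((m : ℝ) - b c) * (p * (1 - p) - q * (1 - q))) =
          ((s c + l c + r c) * (1 - p - q)) * (w1 g m A (a c) (b c) - 1 / 30) -
          A * ((m : ℝ) - b c) * ((s c + l c + r c) * (p * (1 - p)) -
            (s c + l c + r c) * (q * (1 - q))) := by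
        ring
      rw [h6, h1] at h5
      linarith

theorem node_ge (hC : Cert g m A M) (hl : ∀ c, c ≠ ⊤ → 0 < l c)
    (hLa : La g m T G a b) (hR : Res T G l s r) (v : V) :
    0 ≤ (if v = ⊤ then 0 else bv g m A M a l s r v) + ∑ c ∈ T.kids v, tv g m A M T a l s r c := by
  by_cases hG : G v
  · -- a grounded node
    have hsv := hR.s_grd v hG
    refine add_nonneg ?_ (Finset.sum_nonneg fun c hc => ?_)
    · split_ifs with hv
      · exact le_rfl
      · have hlv := hl v hv
        have hr := r_nn hR v hv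
        have ha1 := hLa.a_pos v
        have ha2 := hLa.a_le v
        unfold bv
        split_ifs with ho hs2
        · exact le_rfl
        · have he : Even (a v) := Nat.not_odd_iff_even.1 ho
          have ha3 : 2 ≤ a v := by
            obtain ⟨k, hk⟩ := he
            omega
          rw [hsv, zero_div, sub_zero, hC.leaf (a v) ha3 he hs2]
          simp
        · have he : Even (a v) := Nat.not_odd_iff_even.1 ho
          have he' : Even (2 * g + 2 - a v) := by
            obtain ⟨k, hk⟩ := he
            exact ⟨g + 1 - k, by omega⟩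
          have ha4 : 2 ≤ 2 * g + 2 - a v := by
            obtain ⟨k, hk⟩ := he
            omega
          rw [hh_grd hR v hG, mul_zero, sub_zero, hsv, zero_div]
          exact mul_nonneg (by linarith) (hC.zero _ ha4 he' (by omega))
    · rw [T.mem_kids] at hc
      obtain ⟨hc1, hc2⟩ := hc
      have hlc := hl c hc1
      have hs := s_nn hR c
      have hr := hR.r_grd c hc1 (hc2.symm ▸ hG)
      have ha1 := hLa.a_pos c
      have ha2 := hLa.a_le c
      unfold tv
      split_ifs with ho hs2
      · exact le_rfl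
      · have he : Even (a c) := Nat.not_odd_iff_even.1 ho
        have ha3 : 2 ≤ a c := by
          obtain ⟨k, hk⟩ := he
          omega
        rw [hr, zero_div]
        exact mul_nonneg (by linarith) (hC.zero _ ha3 he hs2)
      · have he : Even (a c) := Nat.not_odd_iff_even.1 ho
        have he' : Even (2 * g + 2 - a c) := by
          obtain ⟨k, hk⟩ := he
          exact ⟨g + 1 - k, by omega⟩
        have ha4 : 2 ≤ 2 * g + 2 - a c := by
          obtain ⟨k, hk⟩ := he
          omega
        rw [hc2, hh_grd hR v hG, hr, zero_div, sub_zero, hC.leaf _ ha4 he' (by omega)]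
        simp
  · -- a node which is not grounded
    have hv : v ≠ ⊤ := fun h => hG (h ▸ hLa.top)
    rw [if_neg hv]
    have hlv := hl v hv
    have hrv := r_nn hR v hv
    have hsv := hR.s_pos v hG
    have hLv : 0 < s v + l v + r v := by linarith
    obtain ⟨h, hh0⟩ : ∃ h, h = hh l s r v := ⟨_, rfl⟩
    have hhe : h = s v * (l v + r v) / (s v + l v + r v) := by rw [hh0]; rfl
    have hpos : 0 < h := by
      rw [hhe]
      exact div_pos (mul_pos hsv (by linarith)) hLv
    obtain ⟨q, hq⟩ : ∃ q, q = s v / (s v + l v + r v) := ⟨_, rfl⟩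
    have hq0 : 0 < q := by rw [hq]; exact div_pos hsv hLv
    have hq1 : q < 1 := by
      rw [hq, div_lt_one hLv]
      linarith
    have hqL : (s v + l v + r v) * (q * (1 - q)) = h := by
      rw [hhe, hq]
      field_simp
      ring
    obtain ⟨p, hp⟩ : ∃ p : V → ℝ, ∀ c, p c = if c = v then q else
      r c / (s c + l c + r c) := ⟨_, fun c => rfl⟩
    have hpv : p v = q := by rw [hp, if_pos rfl]
    have hne : ∀ c ∈ T.kids v, c ≠ v := by
      intro c hc h
      rw [T.mem_kids] at hc
      have h2 := T.lt_par c hc.1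
      rw [hc.2, h] at h2
      exact lt_irrefl _ h2
    have hvk : v ∉ T.kids v := fun h => hne v h rfl
    have hpc : ∀ c ∈ T.kids v, p c = r c / (s c + l c + r c) := by
      intro c hc
      rw [hp, if_neg (hne c hc)]
    -- facts about the children
    have kid : ∀ c ∈ T.kids v, 2 ≤ a c ∧ Even (a c) ∧ 0 < p c ∧ p c < 1 ∧
        (s c + l c + r c) * (p c * (1 - p c)) = h ∧ p c = h * (l c + s c)⁻¹ := by
      intro c hc
      have hev := hLa.kids_even v hG c hc
      have hc' := (T.mem_kids _ _).1 hc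
      obtain ⟨hc1, hc2⟩ := hc'
      have hlc := hl c hc1
      have hs := s_nn hR c
      have hr := hR.r_pos c hc1 (hc2.symm ▸ hG)
      have hL : 0 < s c + l c + r c := by linarith
      have hpar := (MNT.H30.hed V T G l s r hl hLa.top hR c hc1).1
      rw [hc2, ← hh0] at hpar
      have ha1 := hLa.a_pos c
      refine ⟨?_, hev, ?_, ?_, ?_, ?_⟩
      · obtain ⟨k, hk⟩ := hev
        omega
      · rw [hpc c hc]
        exact div_pos hr hL
      · rw [hpc c hc, div_lt_one hL]
        linarith
      · rw [hpc c hc, hpar]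
        field_simp
        ring
      · rw [hpc c hc, hpar]
        have : 0 < l c + s c := by linarith
        field_simp
        ring
    have hsum_a := hLa.sum_eq v hG
    have hsum_p : ∑ c ∈ T.kids v, p c = 1 - q := by
      rw [Finset.sum_congr rfl fun c hc => (kid c hc).2.2.2.2.2, ← Finset.mul_sum,
        ← hR.s_eq v hG, hhe, hq]
      field_simp
      ring
    have heva := hLa.even v hG
    have ha1 := hLa.a_pos v
    have ha2 := hLa.a_le v
    have hav : 2 ≤ a v := by
      obtain ⟨k, hk⟩ := heva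
      omega
    have hkne : (T.kids v).Nonempty := by
      by_contra hne
      rw [Finset.not_nonempty_iff_eq_empty] at hne
      rw [hne, Finset.sum_empty] at hsum_a
      omega
    -- the values
    have tsmall : ∀ c ∈ T.kids v, a c ≤ g + 1 → tv g m A M T a l s r c = h * FM M (a c) (p c) := by
      intro c hc hs2
      obtain ⟨-, hev, hp0, hp1, hL, -⟩ := kid c hc
      unfold tv FM
      rw [if_neg (Nat.not_odd_iff_even.2 hev), if_pos hs2, ← hpc c hc, ← hL]
      have h1 : 0 < 1 - p c := by linarith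
      field_simp
    have tbig : ∀ c ∈ T.kids v, ¬ a c ≤ g + 1 → tv g m A M T a l s r c =
        -(h * FM M (2 * g + 2 - a c) (1 - p c)) + A * m * h := by
      intro c hc hs2
      obtain ⟨-, hev, hp0, hp1, hL, -⟩ := kid c hc
      unfold tv FM
      rw [if_neg (Nat.not_odd_iff_even.2 hev), if_neg hs2, ← hpc c hc, ((T.mem_kids _ _).1 hc).2,
        ← hh0]
      have h1 : 0 < 1 - p c := by linarith
      have h2 : h * (M (2 * g + 2 - a c) (1 - p c) / ((1 - p c) * (1 - (1 - p c)))) =
          (s c + l c + r c) * M (2 * g + 2 - a c) (1 - p c) := by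
        rw [← hL, sub_sub_cancel]
        field_simp
      rw [h2]
    have bsmall : a v ≤ g + 1 → bv g m A M a l s r v = -(h * FM M (a v) (1 - q)) := by
      intro hs2
      unfold bv FM
      rw [if_neg (Nat.not_odd_iff_even.2 heva), if_pos hs2, ← hq]
      have h1 : 0 < 1 - q := by linarith
      have h2 : h * (M (a v) (1 - q) / ((1 - q) * (1 - (1 - q)))) =
          (s v + l v + r v) * M (a v) (1 - q) := by
        rw [← hqL, sub_sub_cancel]
        field_simp
      rw [h2]
    have bbig : ¬ a v ≤ g + 1 → bv g m A M a l s r v =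
        h * FM M (2 * g + 2 - a v) q - A * m * h := by
      intro hs2
      unfold bv FM
      rw [if_neg (Nat.not_odd_iff_even.2 heva), if_neg hs2, ← hq, ← hh0]
      have h1 : 0 < 1 - q := by linarith
      have h2 : h * (M (2 * g + 2 - a v) q / (q * (1 - q))) =
          (s v + l v + r v) * M (2 * g + 2 - a v) q := by
        rw [← hqL]
        field_simp
      rw [h2]
    have hevn : ∀ k : ℕ, Even k → Even (2 * g + 2 - k) := by
      rintro k ⟨j, hj⟩
      exact ⟨g + 1 - j, by omega⟩
    by_cases hs2 : a v ≤ g + 1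
    · -- all edges at `v` have their small side below
      have hk : ∀ c ∈ T.kids v, a c ≤ g + 1 := by
        intro c hc
        have := Finset.single_le_sum (f := a) (fun i _ => Nat.zero_le _) hc
        omega
      rw [bsmall hs2, Finset.sum_congr rfl fun c hc => tsmall c hc (hk c hc), ← Finset.mul_sum]
      have h1 := hC.node V (T.kids v) a p hkne (fun c hc => ⟨(kid c hc).1, (kid c hc).2.1,
        (kid c hc).2.2.1⟩) (by omega) (by rw [hsum_p]; linarith)
      rw [hsum_a, hsum_p] at h1
      have h2 := mul_le_mul_of_nonneg_left h1 hpos.le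
      linarith
    · rw [bbig hs2]
      obtain ⟨x, hx⟩ : ∃ x : V → ℕ, ∀ c, x c = if c = v then 2 * g + 2 - a v else a c :=
        ⟨_, fun c => rfl⟩
      have hxv : x v = 2 * g + 2 - a v := by rw [hx, if_pos rfl]
      have hxc : ∀ c ∈ T.kids v, x c = a c := by
        intro c hc
        rw [hx, if_neg (hne c hc)]
      have hxv2 : 2 ≤ x v := by
        rw [hxv]
        obtain ⟨k, hk⟩ := heva
        omega
      have hxv3 : Even (x v) := by
        rw [hxv]
        exact hevn _ heva
      by_cases hex : ∃ c ∈ T.kids v, ¬ a c ≤ g + 1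
      · obtain ⟨c₀, hc₀, hb⟩ := hex
        have herase : ∑ c ∈ (T.kids v).erase c₀, a c + a c₀ = a v := by
          rw [Finset.sum_erase_add _ _ hc₀, hsum_a]
        have hperase : ∑ c ∈ (T.kids v).erase c₀, p c + p c₀ = 1 - q := by
          rw [Finset.sum_erase_add _ _ hc₀, hsum_p]
        have hk : ∀ c ∈ (T.kids v).erase c₀, a c ≤ g + 1 := by
          intro c hc
          have h9 : a c ≤ ∑ c ∈ (T.kids v).erase c₀, a c :=
            Finset.single_le_sum (f := a) (fun i _ => Nat.zero_le _) hc
          omega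
        rw [← Finset.sum_erase_add _ _ hc₀, tbig c₀ hc₀ hb,
          Finset.sum_congr rfl fun c hc => tsmall c (Finset.mem_of_mem_erase hc) (hk c hc),
          ← Finset.mul_sum]
        have hve : v ∉ (T.kids v).erase c₀ := fun h => hvk (Finset.mem_of_mem_erase h)
        have hsx : ∑ i ∈ insert v ((T.kids v).erase c₀), x i = 2 * g + 2 - a c₀ := by
          have h8 : ∑ c ∈ (T.kids v).erase c₀, x c = ∑ c ∈ (T.kids v).erase c₀, a c :=
            Finset.sum_congr rfl fun c hc => hxc c (Finset.mem_of_mem_erase hc)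
          rw [Finset.sum_insert hve, hxv, h8]
          omega
        have hsp : ∑ i ∈ insert v ((T.kids v).erase c₀), p i = 1 - p c₀ := by
          rw [Finset.sum_insert hve, hpv]
          linarith
        have h1 := hC.node V (insert v ((T.kids v).erase c₀)) x p (Finset.insert_nonempty _ _) (by
          intro i hi
          rcases Finset.mem_insert.1 hi with rfl | hi
          · exact ⟨hxv2, hxv3, by rw [hpv]; exact hq0⟩
          · have hi' := Finset.mem_of_mem_erase hi
            rw [hxc i hi']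
            exact ⟨(kid i hi').1, (kid i hi').2.1, (kid i hi').2.2.1⟩) (by
          rw [hsx]
          omega) (by
          rw [hsp]
          linarith [(kid c₀ hc₀).2.2.1])
        rw [hsx, hsp, Finset.sum_insert hve, hxv, hpv,
          Finset.sum_congr rfl fun c hc => by rw [hxc c (Finset.mem_of_mem_erase hc)]] at h1
        have h2 := mul_le_mul_of_nonneg_left h1 hpos.le
        linarith
      · have hk : ∀ c ∈ T.kids v, a c ≤ g + 1 := by
          intro c hc
          by_contra h
          exact hex ⟨c, hc, h⟩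
        rw [Finset.sum_congr rfl fun c hc => tsmall c hc (hk c hc), ← Finset.mul_sum]
        have h1 := hC.root V (insert v (T.kids v)) x p (by
          intro i hi
          rcases Finset.mem_insert.1 hi with rfl | hi
          · exact ⟨hxv2, hxv3, by rw [hxv]; omega, by rw [hpv]; exact hq0, by rw [hpv]; exact hq1⟩
          · rw [hxc i hi]
            exact ⟨(kid i hi).1, (kid i hi).2.1, hk i hi, (kid i hi).2.2.1, (kid i hi).2.2.2.1⟩) (by
          rw [Finset.sum_insert hvk, hxv, Finset.sum_congr rfl hxc, hsum_a]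
          omega) (by
          rw [Finset.sum_insert hvk, hpv, hsum_p]
          ring)
        rw [Finset.sum_insert hvk, hxv, hpv,
          Finset.sum_congr rfl fun c hc => by rw [hxc c hc]] at h1
        have h2 := mul_le_mul_of_nonneg_left h1 hpos.le
        linarith

/-- sums over all children of all nodes -/
theorem sum_kids (T : MNT.Tree V) (f : V → ℝ) :
    ∑ v, ∑ c ∈ T.kids v, f c = ∑ c with c ≠ ⊤, f c := by
  have h1 := MNT.H50.sbp V T f (fun _ => 1)
  simp only [one_mul, sub_self, mul_zero, Finset.sum_const_zero, add_zero] at h1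
  rw [Finset.sum_sub_distrib] at h1
  have h2 : ∑ v, f v = f ⊤ + ∑ c with c ≠ ⊤, f c := by
    rw [← Finset.sum_filter_add_sum_filter_not Finset.univ (fun c : V => c = ⊤) f]
    congr 1
    rw [Finset.sum_filter, Finset.sum_ite_eq' Finset.univ (⊤ : V) f]
    simp
  linarith

/-- The tree inequality. -/
theorem tree (hm : 2 ≤ m) (hA : 0 ≤ A) (hC : Cert g m A M) (hl : ∀ c, c ≠ ⊤ → 0 < l c)
    (hLa : La g m T G a b) :
    ∃ D : V → V → ℝ, (∀ v j, 0 ≤ D v j) ∧ (∀ v j, D v j ≠ 0 → G j) ∧ (∀ v, ∑ j, D v j = 1) ∧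
      1 / 30 * ∑ c with c ≠ ⊤, l c +
        A * ∑ v, ((b v : ℝ) - ∑ c ∈ T.kids v, (b c : ℝ)) * QQ l (fun j => D v j - dl v j) ≤
        ∑ c with c ≠ ⊤, l c * w1 g m A (a c) (b c) := by
  obtain ⟨s, r, hR⟩ := MNT.H77.res V T G l hl hLa.top (by
    intro v hv
    by_contra hne
    rw [Finset.not_nonempty_iff_eq_empty] at hne
    have h1 := hLa.sum_eq v hv
    rw [hne, Finset.sum_empty] at h1
    have h2 := hLa.a_pos v
    omega)
  choose D hD1 hD2 hD3 hD4 using
    (MNT.H89.flo MNT.H56.fpl (MNT.H56.fdn MNT.H56.fpl)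
      (MNT.H89.fup MNT.H56.fpl (MNT.H56.fdn MNT.H56.fpl))) V T G l s r hl hLa.top hR
  refine ⟨D, hD1, hD2, hD3, ?_⟩
  have hrho : ∀ v, 0 ≤ (b v : ℝ) - ∑ c ∈ T.kids v, (b c : ℝ) := by
    intro v
    have h1 := hLa.b_kids v
    have h2 : ((∑ c ∈ T.kids v, b c : ℕ) : ℝ) ≤ (b v : ℝ) := by exact_mod_cast h1
    push_cast at h2
    linarith
  -- the resistances
  have h1 : ∑ v, ((b v : ℝ) - ∑ c ∈ T.kids v, (b c : ℝ)) * QQ l (fun j => D v j - dl v j) ≤
      ∑ v, hh l s r v * ((b v : ℝ) - ∑ c ∈ T.kids v, (b c : ℝ)) := by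
    apply Finset.sum_le_sum
    intro v _
    rw [mul_comm (hh l s r v)]
    exact mul_le_mul_of_nonneg_left (hD4 v) (hrho v)
  rw [MNT.H50.sbp V T (fun v => (b v : ℝ)) (hh l s r), hh_grd hR ⊤ hLa.top, zero_mul,
    zero_add] at h1
  -- edges
  have h2 : ∑ c with c ≠ ⊤, (tv g m A M T a l s r c + bv g m A M a l s r c) ≤
      ∑ c with c ≠ ⊤, (l c * (w1 g m A (a c) (b c) - 1 / 30) -
        A * b c * (hh l s r c - hh l s r (T.par c))) := by
    apply Finset.sum_le_sum
    intro c hc
    rw [Finset.mem_filter] at hc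
    exact edge_le hm hC hl hLa hR c hc.2
  -- nodes
  have h3 : 0 ≤ ∑ v, ((if v = ⊤ then 0 else bv g m A M a l s r v) +
      ∑ c ∈ T.kids v, tv g m A M T a l s r c) :=
    Finset.sum_nonneg fun v _ => node_ge hC hl hLa hR v
  rw [Finset.sum_add_distrib, sum_kids] at h3
  have h4 : ∑ v, (if v = ⊤ then 0 else bv g m A M a l s r v) =
      ∑ c with c ≠ ⊤, bv g m A M a l s r c := by
    rw [Finset.sum_filter]
    apply Finset.sum_congr rfl
    intro v _
    by_cases hv : v = ⊤
    · simp [hv]
    · simp [hv]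
  rw [h4] at h3
  rw [Finset.sum_add_distrib] at h2
  have h5 : ∑ c with c ≠ ⊤, (l c * (w1 g m A (a c) (b c) - 1 / 30) -
        A * b c * (hh l s r c - hh l s r (T.par c))) =
      ∑ c with c ≠ ⊤, l c * w1 g m A (a c) (b c) - 1 / 30 * ∑ c with c ≠ ⊤, l c -
        A * ∑ c with c ≠ ⊤, (b c : ℝ) * (hh l s r c - hh l s r (T.par c)) := by
    rw [Finset.mul_sum, Finset.mul_sum, ← Finset.sum_sub_distrib, ← Finset.sum_sub_distrib]
    apply Finset.sum_congr rfl
    intro c _
    ring
  rw [h5] at h2
  have h6 := mul_le_mul_of_nonneg_left h1 hA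
  linarith

end tree

end Pool.Agent.MNW.H55
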